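import Pool.Agent.TH181.MW.Mom
import Pool.Agent.W225.MWDIO
import Pool.Agent.Helper112.Arith

/-! # The sixth moment: counting solutions of the system of degrees `1, k` in six variables -/

set_option autoImplicit false

open Finset

namespace Pool.Agent.TH181.MW

theorem dio (k : ℕ) (hk : 2 ≤ k) (x1 x2 y1 y2 : ℕ) (h0 : 0 < x1) (hs : x1 + x2 = y1 + y2)
    (hp : x1 ^ k + x2 ^ k = y1 ^ k + y2 ^ k) : x1 = y1 ∨ x1 = y2 := by
  have h := Pool.Agent.W225.MWD.t k x1 x2 y1 y2 hk hs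
  have h1 : (x1 : ℝ) ^ k + (x2 : ℝ) ^ k - (y1 : ℝ) ^ k - (y2 : ℝ) ^ k = 0 := by
    have : (x1 : ℝ) ^ k + (x2 : ℝ) ^ k = (y1 : ℝ) ^ k + (y2 : ℝ) ^ k := by exact_mod_cast hp
    linarith
  rw [h1, abs_zero] at h
  have hm : (0 : ℝ) < max (max (x1 : ℝ) (x2 : ℝ)) (max (y1 : ℝ) (y2 : ℝ)) := by
    have : (0 : ℝ) < (x1 : ℝ) := by exact_mod_cast h0
    exact lt_of_lt_of_le this ((le_max_left _ _).trans (le_max_left _ _))
  have hm' := pow_pos hm (k - 2)
  have h2 : |(x1 : ℝ) - (y1 : ℝ)| * |(x1 : ℝ) - (y2 : ℝ)| ≤ 0 := by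
    by_contra hc
    push Not at hc
    have := mul_pos hc hm'
    linarith
  have h3 : |(x1 : ℝ) - (y1 : ℝ)| * |(x1 : ℝ) - (y2 : ℝ)| = 0 :=
    le_antisymm h2 (by positivity)
  rcases mul_eq_zero.mp h3 with h4 | h4
  · left
    have := sub_eq_zero.mp (abs_eq_zero.mp h4)
    exact_mod_cast this
  · right
    have := sub_eq_zero.mp (abs_eq_zero.mp h4)
    exact_mod_cast this

/-- the number whose divisors are counted -/
def G (k a b c : ℕ) : ℤ := ((a : ℤ) + b - c) ^ k + (c : ℤ) ^ k - (a : ℤ) ^ k - (b : ℤ) ^ k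

theorem G_ne (k : ℕ) (hk : 2 ≤ k) (a b c : ℕ) (ha : 0 < a) (hb : 0 < b) (hc : 0 < c) (h1 : c ≠ a) (h2 : c ≠ b) :
    G k a b c ≠ 0 := by
  unfold G
  intro h
  rcases le_or_gt c (a + b) with h3 | h3
  · obtain ⟨m, hm⟩ := Nat.exists_eq_add_of_le h3
    have h4 : ((a : ℤ) + b - c) = (m : ℤ) := by
      have : ((a + b : ℕ) : ℤ) = ((c + m : ℕ) : ℤ) := by rw [hm]
      push_cast at this
      linarith
    rw [h4] at h
    have h5 : c ^ k + m ^ k = a ^ k + b ^ k := by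
      have : (c : ℤ) ^ k + (m : ℤ) ^ k = (a : ℤ) ^ k + (b : ℤ) ^ k := by linarith
      exact_mod_cast this
    rcases dio k hk c m a b hc hm.symm h5 with h6 | h6
    · exact h1 h6
    · exact h2 h6
  · obtain ⟨m, hm⟩ := Nat.exists_eq_add_of_le h3.le
    have hm0 : 0 < m := by omega
    have h4 : ((a : ℤ) + b - c) = -(m : ℤ) := by
      have : ((c : ℕ) : ℤ) = ((a + b + m : ℕ) : ℤ) := by rw [hm]
      push_cast at this
      linarith
    rw [h4] at h
    have h5 : -((m : ℤ) ^ k) ≤ (-(m : ℤ)) ^ k := by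
      have := neg_abs_le ((-(m : ℤ)) ^ k)
      rw [abs_pow, abs_neg, Nat.abs_cast] at this
      exact this
    have h6 : (m : ℤ) ^ k + (a : ℤ) ^ k + (b : ℤ) ^ k < (c : ℤ) ^ k := by
      obtain ⟨j, rfl⟩ : ∃ j, k = j + 1 := ⟨k - 1, by omega⟩
      have hj : j ≠ 0 := by omega
      have g1 : m ^ j < c ^ j := Nat.pow_lt_pow_left (by omega) hj
      have g2 : a ^ j < c ^ j := Nat.pow_lt_pow_left (by omega) hj
      have g3 : b ^ j < c ^ j := Nat.pow_lt_pow_left (by omega) hj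
      have g4 : m ^ (j + 1) + a ^ (j + 1) + b ^ (j + 1) < c ^ (j + 1) := by
        rw [pow_succ m, pow_succ a, pow_succ b, pow_succ c]
        have g5 : c ^ j * c = c ^ j * a + c ^ j * b + c ^ j * m := by
          calc c ^ j * c = c ^ j * (a + b + m) := by rw [← hm]
            _ = c ^ j * a + c ^ j * b + c ^ j * m := by ring
        rw [g5]
        have g6 : m ^ j * m < c ^ j * m := Nat.mul_lt_mul_of_pos_right g1 hm0
        have g7 : a ^ j * a < c ^ j * a := Nat.mul_lt_mul_of_pos_right g2 ha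
        have g8 : b ^ j * b < c ^ j * b := Nat.mul_lt_mul_of_pos_right g3 hb
        omega
      exact_mod_cast g4
    linarith

theorem G_le (k N a b c : ℕ) (ha : a ≤ N) (hb : b ≤ N) (hc : c ≤ N) :
    (G k a b c).natAbs ≤ 4 * (2 * N) ^ k := by
  have h1 : |G k a b c| ≤ 4 * (2 * (N : ℤ)) ^ k := by
    unfold G
    have g1 : |((a : ℤ) + b - c) ^ k| ≤ (2 * (N : ℤ)) ^ k := by
      rw [abs_pow]
      apply pow_le_pow_left₀ (abs_nonneg _)
      rw [abs_le]
      constructor <;> omega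
    have g2 : ∀ d : ℕ, d ≤ N → |(d : ℤ) ^ k| ≤ (2 * (N : ℤ)) ^ k := by
      intro d hd
      rw [abs_pow]
      apply pow_le_pow_left₀ (abs_nonneg _)
      rw [abs_le]
      constructor <;> omega
    have g3 := g2 a ha
    have g4 := g2 b hb
    have g5 := g2 c hc
    rw [abs_le] at *
    constructor <;> linarith [g1.1, g1.2, g3.1, g3.2, g4.1, g4.2, g5.1, g5.2]
  have h2 : ((G k a b c).natAbs : ℤ) ≤ ((4 * (2 * N) ^ k : ℕ) : ℤ) := by
    rw [Int.natCast_natAbs]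
    push_cast
    exact h1
  exact_mod_cast h2

/-- possible differences -/
noncomputable def Hs (k N a b c : ℕ) : Finset ℤ :=
  if c = a ∨ c = b then Icc (-(N : ℤ)) N
  else ((G k a b c).natAbs.divisors).image (fun d : ℕ => (d : ℤ)) ∪
    ((G k a b c).natAbs.divisors).image (fun d : ℕ => -(d : ℤ))

theorem Hs_card (k N a b c D : ℕ) (hD : (c ≠ a → c ≠ b → (G k a b c).natAbs.divisors.card ≤ D)) :
    (Hs k N a b c).card ≤ (if c = a then 2 * N + 1 else 0) + (if c = b then 2 * N + 1 else 0) + 2 * D := by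
  unfold Hs
  by_cases h : c = a ∨ c = b
  · rw [if_pos h]
    have h1 : (Icc (-(N : ℤ)) N).card = 2 * N + 1 := by
      rw [Int.card_Icc]; omega
    rw [h1]
    rcases h with h | h
    · rw [if_pos h]; omega
    · rw [if_pos h]; omega
  · rw [if_neg h]
    push Not at h
    have h1 := hD h.1 h.2
    have h2 := Finset.card_union_le (((G k a b c).natAbs.divisors).image (fun d : ℕ => (d : ℤ)))
      (((G k a b c).natAbs.divisors).image (fun d : ℕ => -(d : ℤ)))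
    have h3 : (((G k a b c).natAbs.divisors).image (fun d : ℕ => (d : ℤ))).card ≤
      (G k a b c).natAbs.divisors.card := Finset.card_image_le
    have h4 : (((G k a b c).natAbs.divisors).image (fun d : ℕ => -(d : ℤ))).card ≤
      (G k a b c).natAbs.divisors.card := Finset.card_image_le
    omega

theorem mem_Hs (k N : ℕ) (hk : 2 ≤ k) (x0 x1 x2 y0 y1 y2 : ℕ) (hx0 : x0 ∈ Icc 1 N) (hx1 : x1 ∈ Icc 1 N)
    (hx2 : x2 ∈ Icc 1 N) (hy0 : y0 ∈ Icc 1 N) (hy2 : y2 ∈ Icc 1 N)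
    (hs : x0 + x1 + x2 = y0 + y1 + y2) (hp : x0 ^ k + x1 ^ k + x2 ^ k = y0 ^ k + y1 ^ k + y2 ^ k) :
    (x0 : ℤ) - y0 ∈ Hs k N x1 x2 y2 := by
  rw [Finset.mem_Icc] at *
  unfold Hs
  split_ifs with h
  · rw [Finset.mem_Icc]
    constructor <;> omega
  · push Not at h
    have hG := G_ne k hk x1 x2 y2 (by omega) (by omega) (by omega) h.1 h.2
    have hdvd : ((x0 : ℤ) - y0) ∣ G k x1 x2 y2 := by
      have d1 : ((x0 : ℤ) - y0) ∣ (x0 : ℤ) ^ k - (y0 : ℤ) ^ k := sub_dvd_pow_sub_pow _ _ k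
      have d2 : ((y1 : ℤ) - ((x1 : ℤ) + x2 - y2)) ∣ (y1 : ℤ) ^ k - ((x1 : ℤ) + x2 - y2) ^ k :=
        sub_dvd_pow_sub_pow _ _ k
      have d3 : ((y1 : ℤ) - ((x1 : ℤ) + x2 - y2)) = (x0 : ℤ) - y0 := by omega
      rw [d3] at d2
      have d4 : G k x1 x2 y2 = ((x0 : ℤ) ^ k - (y0 : ℤ) ^ k) - ((y1 : ℤ) ^ k - ((x1 : ℤ) + x2 - y2) ^ k) := by
        unfold G
        have : ((x0 : ℤ) ^ k + (x1 : ℤ) ^ k + (x2 : ℤ) ^ k) = ((y0 : ℤ) ^ k + (y1 : ℤ) ^ k + (y2 : ℤ) ^ k) := by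
          exact_mod_cast hp
        linarith
      rw [d4]
      exact dvd_sub d1 d2
    have hmem : ((x0 : ℤ) - y0).natAbs ∈ (G k x1 x2 y2).natAbs.divisors := by
      rw [Nat.mem_divisors]
      exact ⟨Int.natAbs_dvd_natAbs.mpr hdvd, Int.natAbs_ne_zero.mpr hG⟩
    rw [Finset.mem_union, Finset.mem_image, Finset.mem_image]
    rcases le_total 0 ((x0 : ℤ) - y0) with h0 | h0
    · left
      exact ⟨_, hmem, by omega⟩
    · right
      exact ⟨_, hmem, by omega⟩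

theorem J3_nat (k N D : ℕ) (hk : 2 ≤ k) (hD : ∀ n : ℕ, 1 ≤ n → n ≤ 4 * (2 * N) ^ k → n.divisors.card ≤ D) :
    J 3 k N ≤ 2 * N ^ 3 + (N ^ 2 * (4 * N + 2) + N ^ 3 * (2 * D)) := by
  classical
  set S := (((tup 3 N) ×ˢ (tup 3 N)).filter
    (fun z => ∑ i, z.1 i = ∑ i, z.2 i ∧ ∑ i, z.1 i ^ k = ∑ i, z.2 i ^ k)) with hS
  have hmem : ∀ z : (Fin 3 → ℕ) × (Fin 3 → ℕ), z ∈ S → (∀ i, z.1 i ∈ Icc 1 N) ∧ (∀ i, z.2 i ∈ Icc 1 N) ∧
      z.1 0 + z.1 1 + z.1 2 = z.2 0 + z.2 1 + z.2 2 ∧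
      z.1 0 ^ k + z.1 1 ^ k + z.1 2 ^ k = z.2 0 ^ k + z.2 1 ^ k + z.2 2 ^ k := by
    intro z hz
    rw [hS, Finset.mem_filter, Finset.mem_product] at hz
    obtain ⟨⟨h1, h2⟩, h3, h4⟩ := hz
    unfold tup at h1 h2
    rw [Fintype.mem_piFinset] at h1 h2
    rw [Fin.sum_univ_three, Fin.sum_univ_three] at h3 h4
    exact ⟨h1, h2, h3, h4⟩
  have hJ : J 3 k N = S.card := rfl
  rw [hJ, ← Finset.card_filter_add_card_filter_not (s := S) (fun z => z.1 0 = z.2 0)]
  apply Nat.add_le_add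
  · -- diagonal
    have h1 : (S.filter (fun z => z.1 0 = z.2 0)).card ≤
        ((Icc 1 N ×ˢ (Icc 1 N ×ˢ Icc 1 N)) ×ˢ (range 2)).card := by
      apply Finset.card_le_card_of_injOn
        (fun z => ((z.1 0, (z.1 1, z.1 2)), if z.2 1 = z.1 1 then 0 else 1))
      · intro z hz
        rw [Finset.mem_coe, Finset.mem_filter] at hz
        obtain ⟨a1, a2, a3, a4⟩ := hmem z hz.1
        rw [Finset.mem_coe, Finset.mem_product, Finset.mem_product, Finset.mem_product]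
        refine ⟨⟨a1 0, a1 1, a1 2⟩, ?_⟩
        rw [Finset.mem_range]
        dsimp only
        split_ifs <;> omega
      · intro z hz w hw hzw
        rw [Finset.mem_coe, Finset.mem_filter] at hz hw
        obtain ⟨a1, a2, a3, a4⟩ := hmem z hz.1
        obtain ⟨b1, b2, b3, b4⟩ := hmem w hw.1
        simp only [Prod.mk.injEq] at hzw
        obtain ⟨⟨c0, c1, c2⟩, c3⟩ := hzw
        have hz0 := hz.2
        have hw0 := hw.2
        have p1 := Finset.mem_Icc.mp (a2 1)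
        have p2 := Finset.mem_Icc.mp (b2 1)
        have d1 := dio k hk (z.2 1) (z.2 2) (z.1 1) (z.1 2) (by omega) (by omega)
          (by rw [hz0] at a4; omega)
        have d2 := dio k hk (w.2 1) (w.2 2) (w.1 1) (w.1 2) (by omega) (by omega)
          (by rw [hw0] at b4; omega)
        have e1 : z.2 1 = w.2 1 := by
          split_ifs at c3 with u1 u2 u2
          · omega
          · omega
        have e2 : z.2 2 = w.2 2 := by omega
        apply Prod.ext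
        · funext i; fin_cases i <;> [exact c0; exact c1; exact c2]
        · funext i
          fin_cases i
          · change z.2 0 = w.2 0; omega
          · exact e1
          · exact e2
    refine h1.trans (le_of_eq ?_)
    simp only [Finset.card_product, Nat.card_Icc, Finset.card_range]
    rw [Nat.add_sub_cancel]; ring
  · -- off diagonal
    have h1 : (S.filter (fun z => ¬ z.1 0 = z.2 0)).card ≤
        ((Icc 1 N ×ˢ (Icc 1 N ×ˢ Icc 1 N)).sigma (fun v => Hs k N v.1 v.2.1 v.2.2)).card := by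
      apply Finset.card_le_card_of_injOn
        (fun z => (⟨(z.1 1, (z.1 2, z.2 2)), (z.1 0 : ℤ) - z.2 0⟩ : Σ _ : ℕ × ℕ × ℕ, ℤ))
      · intro z hz
        rw [Finset.mem_coe, Finset.mem_filter] at hz
        obtain ⟨a1, a2, a3, a4⟩ := hmem z hz.1
        rw [Finset.mem_coe, Finset.mem_sigma, Finset.mem_product, Finset.mem_product]
        exact ⟨⟨a1 1, a1 2, a2 2⟩, mem_Hs k N hk (z.1 0) (z.1 1) (z.1 2) (z.2 0) (z.2 1) (z.2 2)
          (a1 0) (a1 1) (a1 2) (a2 0) (a2 2) a3 a4⟩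
      · intro z hz w hw hzw
        rw [Finset.mem_coe, Finset.mem_filter] at hz hw
        obtain ⟨a1, a2, a3, a4⟩ := hmem z hz.1
        obtain ⟨b1, b2, b3, b4⟩ := hmem w hw.1
        simp only [Sigma.mk.injEq, Prod.mk.injEq, heq_eq_eq] at hzw
        obtain ⟨⟨c1, c2, c3⟩, c4⟩ := hzw
        have hz0 := hz.2
        have hw0 := hw.2
        have e1 : z.2 1 = w.2 1 := by omega
        have p1 := Finset.mem_Icc.mp (a1 0)
        have d1 := dio k hk (z.1 0) (w.2 0) (w.1 0) (z.2 0) (by omega) (by omega)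
          (by
            have q1 := a4
            have q2 := b4
            rw [c1, c2, c3, e1] at q1
            omega)
        have e2 : z.1 0 = w.1 0 := by
          rcases d1 with d | d
          · exact d
          · exact absurd d hz0
        have e3 : z.2 0 = w.2 0 := by omega
        apply Prod.ext
        · funext i; fin_cases i <;> [exact e2; exact c1; exact c2]
        · funext i; fin_cases i <;> [exact e3; exact e1; exact c3]
    refine h1.trans ?_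
    rw [Finset.card_sigma]
    have h2 : ∀ v ∈ (Icc 1 N ×ˢ (Icc 1 N ×ˢ Icc 1 N)), (Hs k N v.1 v.2.1 v.2.2).card ≤
        (if v.2.2 = v.1 then 2 * N + 1 else 0) + (if v.2.2 = v.2.1 then 2 * N + 1 else 0) + 2 * D := by
      intro v hv
      rw [Finset.mem_product, Finset.mem_product] at hv
      obtain ⟨v1, v2, v3⟩ := hv
      rw [Finset.mem_Icc] at v1 v2 v3
      apply Hs_card
      intro g1 g2
      have hG := G_ne k hk v.1 v.2.1 v.2.2 (by omega) (by omega) (by omega) g1 g2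
      apply hD
      · have := Int.natAbs_ne_zero.mpr hG; omega
      · exact G_le k N _ _ _ v1.2 v2.2 v3.2
    refine (Finset.sum_le_sum h2).trans ?_
    rw [Finset.sum_product]
    have h3 : ∀ a ∈ Icc 1 N, ∑ v ∈ Icc 1 N ×ˢ Icc 1 N,
        ((if v.2 = a then 2 * N + 1 else 0) + (if v.2 = v.1 then 2 * N + 1 else 0) + 2 * D) ≤
        N * (4 * N + 2 + N * (2 * D)) := by
      intro a ha
      rw [Finset.sum_product]
      have h4 : ∀ b ∈ Icc 1 N, ∑ c ∈ Icc 1 N,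
          ((if c = a then 2 * N + 1 else 0) + (if c = b then 2 * N + 1 else 0) + 2 * D) ≤
          4 * N + 2 + N * (2 * D) := by
        intro b hb
        rw [Finset.sum_add_distrib, Finset.sum_add_distrib, Finset.sum_ite_eq', Finset.sum_ite_eq',
          if_pos ha, if_pos hb, Finset.sum_const, Nat.card_Icc, Nat.add_sub_cancel, smul_eq_mul]
        omega
      refine (Finset.sum_le_sum h4).trans (le_of_eq ?_)
      rw [Finset.sum_const, Nat.card_Icc, Nat.add_sub_cancel, smul_eq_mul]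
    refine (Finset.sum_le_sum h3).trans (le_of_eq ?_)
    rw [Finset.sum_const, Nat.card_Icc, Nat.add_sub_cancel, smul_eq_mul]
    ring

/-- the sixth moment -/
theorem J3 (k : ℕ) (hk : 2 ≤ k) (η : ℝ) (hη : 0 < η) : ∃ C : ℝ, 0 < C ∧ ∀ N : ℕ, 1 ≤ N →
    (J 3 k N : ℝ) ≤ C * (N : ℝ) ^ (3 + η) := by
  have hk0 : (0 : ℝ) < k := by
    have : (2 : ℝ) ≤ k := by exact_mod_cast hk
    linarith
  obtain ⟨C0, hC0, hC⟩ := Pool.Agent.Helper112.divisor_bound (η / k) (by positivity)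
  set C1 : ℝ := C0 * ((4 : ℝ) ^ (η / k) * (2 : ℝ) ^ η) with hC1
  have hC1' : 0 < C1 := by positivity
  refine ⟨8 + 2 * (C1 + 1), by positivity, fun N hN => ?_⟩
  have hN' : (1 : ℝ) ≤ N := by exact_mod_cast hN
  have hN0 : (0 : ℝ) < N := by linarith
  have hX : (1 : ℝ) ≤ (N : ℝ) ^ η := Real.one_le_rpow hN' hη.le
  set D : ℕ := ⌊C1 * (N : ℝ) ^ η⌋₊ with hDdef
  have hD : ∀ n : ℕ, 1 ≤ n → n ≤ 4 * (2 * N) ^ k → n.divisors.card ≤ D := by
    intro n hn hn2
    rw [hDdef]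
    apply Nat.le_floor
    refine (hC n hn).trans ?_
    rw [hC1, mul_assoc]
    apply mul_le_mul_of_nonneg_left _ hC0.le
    have h1 : (n : ℝ) ≤ 4 * (2 * (N : ℝ)) ^ k := by exact_mod_cast hn2
    calc (n : ℝ) ^ (η / k) ≤ (4 * (2 * (N : ℝ)) ^ k) ^ (η / k) :=
          Real.rpow_le_rpow (by positivity) h1 (by positivity)
      _ = (4 : ℝ) ^ (η / k) * (2 : ℝ) ^ η * (N : ℝ) ^ η := by
          rw [Real.mul_rpow (by norm_num) (by positivity), ← Real.rpow_natCast (2 * (N : ℝ)) k,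
            ← Real.rpow_mul (by positivity), mul_div_cancel₀ _ hk0.ne',
            Real.mul_rpow (by norm_num) (by positivity)]
          ring
  have hDr : (D : ℝ) ≤ C1 * (N : ℝ) ^ η := Nat.floor_le (by positivity)
  have h1 := J3_nat k N D hk hD
  have h2 : (J 3 k N : ℝ) ≤ 2 * (N : ℝ) ^ 3 + ((N : ℝ) ^ 2 * (4 * N + 2) + (N : ℝ) ^ 3 * (2 * D)) := by
    exact_mod_cast h1
  have h3 : (N : ℝ) ^ (3 + η) = (N : ℝ) ^ 3 * (N : ℝ) ^ η := by
    rw [Real.rpow_add hN0]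
    congr 1
    rw [← Real.rpow_natCast]; norm_num
  rw [h3]
  have h4 : (0 : ℝ) < (N : ℝ) ^ 3 := by positivity
  have h5 : (N : ℝ) ^ 2 * (4 * N + 2) ≤ 6 * (N : ℝ) ^ 3 := by nlinarith [sq_nonneg (N : ℝ)]
  have h6 : (N : ℝ) ^ 3 * (2 * D) ≤ (N : ℝ) ^ 3 * (2 * (C1 * (N : ℝ) ^ η)) :=
    mul_le_mul_of_nonneg_left (by linarith) h4.le
  have h7 : (N : ℝ) ^ 3 ≤ (N : ℝ) ^ 3 * (N : ℝ) ^ η := le_mul_of_one_le_right h4.le hX
  calc (J 3 k N : ℝ) ≤ 8 * (N : ℝ) ^ 3 + (N : ℝ) ^ 3 * (2 * (C1 * (N : ℝ) ^ η)) := by linarith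
    _ ≤ 8 * ((N : ℝ) ^ 3 * (N : ℝ) ^ η) + 2 * C1 * ((N : ℝ) ^ 3 * (N : ℝ) ^ η) := by
        have : (N : ℝ) ^ 3 * (2 * (C1 * (N : ℝ) ^ η)) = 2 * C1 * ((N : ℝ) ^ 3 * (N : ℝ) ^ η) := by ring
        linarith
    _ ≤ (8 + 2 * (C1 + 1)) * ((N : ℝ) ^ 3 * (N : ℝ) ^ η) := by
        have : 0 < (N : ℝ) ^ 3 * (N : ℝ) ^ η := by positivity
        nlinarith

end Pool.Agent.TH181.MW
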