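import Pool.Agent.W928.MW.Stm

/-! # covering numbers and the Hausdorff dimension of an upper limit -/

set_option autoImplicit false

open Finset MeasureTheory

namespace Pool.Agent.TH181.MW

/-- from measure to covering number -/
theorem S_COV_t : Pool.Agent.W928.MW.S_COV := by
  classical
  intro E F δ V a b hδ hV hE hEF hF
  set T : Finset ℤ := (Finset.Icc ⌊a / δ⌋ ⌊b / δ⌋).filter (fun m => ∃ t ∈ E, ⌊t / δ⌋ = m) with hT
  refine ⟨T.image (fun m : ℤ => (m : ℝ) * δ), ?_, ?_⟩
  · have h1 : (⋃ m ∈ T, Set.Ico ((m : ℝ) * δ) (((m : ℝ) + 1) * δ)) ⊆ F := by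
      intro t' ht'
      rw [Set.mem_iUnion₂] at ht'
      obtain ⟨m, hm, hm'⟩ := ht'
      rw [hT, Finset.mem_filter] at hm
      obtain ⟨_, t, htE, htm⟩ := hm
      apply hEF t htE
      have h2 : (m : ℝ) ≤ t / δ := by rw [← htm]; exact Int.floor_le _
      have h3 : t / δ < (m : ℝ) + 1 := by rw [← htm]; exact Int.lt_floor_add_one _
      rw [le_div_iff₀ hδ] at h2
      rw [div_lt_iff₀ hδ] at h3
      rw [abs_le]
      have h4 := hm'.1
      have h5 := hm'.2
      constructor
      · nlinarith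
      · nlinarith
    have h2 : volume (⋃ m ∈ T, Set.Ico ((m : ℝ) * δ) (((m : ℝ) + 1) * δ)) = (T.card : ENNReal) * ENNReal.ofReal δ := by
      rw [measure_biUnion_finset]
      · have : ∀ m ∈ T, volume (Set.Ico ((m : ℝ) * δ) (((m : ℝ) + 1) * δ)) = ENNReal.ofReal δ := by
          intro m _
          rw [Real.volume_Ico]
          congr 1
          ring
        rw [Finset.sum_congr rfl this, Finset.sum_const, nsmul_eq_mul]
      · intro m _ n _ hmn
        change Disjoint _ _
        rw [Set.disjoint_left]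
        intro x hx hx'
        apply hmn
        have g1 : (m : ℝ) * δ < ((n : ℝ) + 1) * δ := lt_of_le_of_lt hx.1 hx'.2
        have g2 : (n : ℝ) * δ < ((m : ℝ) + 1) * δ := lt_of_le_of_lt hx'.1 hx.2
        have g3 : (m : ℝ) < (n : ℝ) + 1 := lt_of_mul_lt_mul_right g1 hδ.le
        have g4 : (n : ℝ) < (m : ℝ) + 1 := lt_of_mul_lt_mul_right g2 hδ.le
        have g5 : m < n + 1 := by exact_mod_cast g3
        have g6 : n < m + 1 := by exact_mod_cast g4
        omega
      · intro m _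
        exact measurableSet_Ico
    have h3 : (T.card : ENNReal) * ENNReal.ofReal δ ≤ ENNReal.ofReal V := by
      rw [← h2]; exact (measure_mono h1).trans hF
    have h4 : (T.card : ENNReal) * ENNReal.ofReal δ = ENNReal.ofReal ((T.card : ℝ) * δ) := by
      rw [ENNReal.ofReal_mul (by positivity), ENNReal.ofReal_natCast]
    rw [h4, ENNReal.ofReal_le_ofReal_iff hV] at h3
    have h5 : ((T.image (fun m : ℤ => (m : ℝ) * δ)).card : ℝ) ≤ (T.card : ℝ) := by
      exact_mod_cast Finset.card_image_le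
    rw [le_div_iff₀ hδ]
    exact (mul_le_mul_of_nonneg_right h5 hδ.le).trans h3
  · intro t ht
    rw [Set.mem_iUnion₂]
    refine ⟨(⌊t / δ⌋ : ℝ) * δ, ?_, ?_⟩
    · rw [Finset.mem_image]
      refine ⟨⌊t / δ⌋, ?_, rfl⟩
      rw [hT, Finset.mem_filter, Finset.mem_Icc]
      have h1 := hE ht
      exact ⟨⟨Int.floor_le_floor (div_le_div_of_nonneg_right h1.1 hδ.le),
        Int.floor_le_floor (div_le_div_of_nonneg_right h1.2 hδ.le)⟩, t, ht, rfl⟩
    · have h2 : (⌊t / δ⌋ : ℝ) ≤ t / δ := Int.floor_le _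
      have h3 : t / δ < (⌊t / δ⌋ : ℝ) + 1 := Int.lt_floor_add_one _
      rw [le_div_iff₀ hδ] at h2
      rw [div_lt_iff₀ hδ] at h3
      exact ⟨h2, by linarith⟩

/-- Hausdorff dimension of an upper limit of sets covered by few short intervals -/
theorem S_DIMG_t : Pool.Agent.W928.MW.S_DIMG := by
  classical
  intro A L D B hL hD hAL hcov
  obtain ⟨i0, hi0⟩ := hcov
  choose! S hS1 hS2 using hi0
  set E : Set ℝ := {c : ℝ | ∀ i1 : ℕ, ∃ i : ℕ, i1 ≤ i ∧ c ∈ B i} with hE
  set ρ : ℝ := (2 : ℝ) ^ (A - L * D) with hρ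
  have hρ0 : 0 < ρ := by positivity
  have hρ1 : ρ < 1 := Real.rpow_lt_one_of_one_lt_of_neg (by norm_num) (by linarith)
  have hpow : ∀ (i : ℕ) (c : ℝ), ((2 : ℝ) ^ i) ^ c = ((2 : ℝ) ^ c) ^ i := by
    intro i c
    rw [← Real.rpow_natCast, ← Real.rpow_mul (by norm_num), mul_comm, Real.rpow_mul (by norm_num),
      Real.rpow_natCast]
  have key : μH[D] E ≤ ENNReal.ofReal (1 / (1 - ρ)) := by
    have h1 := Measure.hausdorffMeasure_le_liminf_tsum (X := ℝ) (β := ℕ)
      (ι := fun n : ℕ => Σ i : ℕ, {x : ℝ // x ∈ S (n + i0 + i)}) D E (l := Filter.atTop)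
      (fun n : ℕ => ENNReal.ofReal (((2 : ℝ) ^ (-L)) ^ (n + i0))) (by
        have g1 : Filter.Tendsto (fun n : ℕ => ((2 : ℝ) ^ (-L)) ^ (n + i0)) Filter.atTop (nhds 0) := by
          have g2 := tendsto_pow_atTop_nhds_zero_of_lt_one (r := (2 : ℝ) ^ (-L)) (by positivity)
            (Real.rpow_lt_one_of_one_lt_of_neg (by norm_num) (by linarith))
          exact (Filter.tendsto_add_atTop_iff_nat i0).mpr g2
        have g3 := ENNReal.tendsto_ofReal g1
        rwa [ENNReal.ofReal_zero] at g3)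
      (fun n v => Set.Icc v.2.1 (v.2.1 + ((2 : ℝ) ^ (n + i0 + v.1)) ^ (-L)))
      (by
        apply Filter.Eventually.of_forall
        intro n v
        rw [Real.ediam_Icc, hpow]
        apply ENNReal.ofReal_le_ofReal
        have g1 : ((2 : ℝ) ^ (-L)) ^ (n + i0 + v.1) ≤ ((2 : ℝ) ^ (-L)) ^ (n + i0) :=
          pow_le_pow_of_le_one (by positivity)
            (Real.rpow_lt_one_of_one_lt_of_neg (by norm_num) (by linarith)).le (by omega)
        linarith)
      (by
        apply Filter.Eventually.of_forall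
        intro n c hc
        obtain ⟨i, hi1, hi2⟩ := hc (n + i0)
        obtain ⟨m, rfl⟩ := Nat.exists_eq_add_of_le hi1
        have g1 := hS2 (n + i0 + m) (by omega) hi2
        rw [Set.mem_iUnion₂] at g1
        obtain ⟨x, hx, hx'⟩ := g1
        rw [Set.mem_iUnion]
        exact ⟨⟨m, ⟨x, hx⟩⟩, hx'⟩)
    refine h1.trans ?_
    apply Filter.liminf_le_of_le (f := Filter.atTop) (hf := by isBoundedDefault)
    intro b hb
    rw [Filter.eventually_atTop] at hb
    obtain ⟨n, hn⟩ := hb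
    refine (hn n le_rfl).trans ?_
    rw [ENNReal.tsum_sigma']
    have g1 : ∀ i : ℕ, ∑' x : {x : ℝ // x ∈ S (n + i0 + i)},
        Metric.ediam (Set.Icc x.1 (x.1 + ((2 : ℝ) ^ (n + i0 + i)) ^ (-L))) ^ D ≤ ENNReal.ofReal (ρ ^ i) := by
      intro i
      have g2 : ∀ x : {x : ℝ // x ∈ S (n + i0 + i)},
          Metric.ediam (Set.Icc x.1 (x.1 + ((2 : ℝ) ^ (n + i0 + i)) ^ (-L))) ^ D =
          ENNReal.ofReal (((2 : ℝ) ^ (n + i0 + i)) ^ (-(L * D))) := by
        intro x
        rw [Real.ediam_Icc, ENNReal.ofReal_rpow_of_nonneg _ hD.le]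
        · congr 1
          rw [add_sub_cancel_left, ← Real.rpow_mul (by positivity)]
          congr 1
          ring
        · rw [add_sub_cancel_left]; positivity
      simp_rw [g2]
      rw [tsum_fintype, Finset.sum_const, Finset.card_univ, Fintype.card_coe, nsmul_eq_mul,
        ← ENNReal.ofReal_natCast, ← ENNReal.ofReal_mul (by positivity)]
      apply ENNReal.ofReal_le_ofReal
      have g3 := hS1 (n + i0 + i) (by omega)
      calc ((S (n + i0 + i)).card : ℝ) * ((2 : ℝ) ^ (n + i0 + i)) ^ (-(L * D))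
          ≤ ((2 : ℝ) ^ (n + i0 + i)) ^ A * ((2 : ℝ) ^ (n + i0 + i)) ^ (-(L * D)) :=
            mul_le_mul_of_nonneg_right g3 (by positivity)
        _ = ρ ^ (n + i0 + i) := by
            rw [← Real.rpow_add (by positivity), ← sub_eq_add_neg, hpow, hρ]
        _ ≤ ρ ^ i := pow_le_pow_of_le_one hρ0.le hρ1.le (by omega)
    refine (ENNReal.tsum_le_tsum g1).trans ?_
    have g4 : Summable (fun i : ℕ => ρ ^ i) := summable_geometric_of_lt_one hρ0.le hρ1
    rw [← ENNReal.ofReal_tsum_of_nonneg (fun i => by positivity) g4, tsum_geometric_of_lt_one hρ0.le hρ1,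
      one_div]
  have h2 : μH[((D.toNNReal : NNReal) : ℝ)] E ≠ ⊤ := by
    rw [Real.coe_toNNReal D hD.le]
    exact ne_top_of_le_ne_top ENNReal.ofReal_ne_top key
  exact dimH_le_of_hausdorffMeasure_ne_top h2

end Pool.Agent.TH181.MW
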