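import Pool.Agent.TH181.MW.Mom

/-! # Weyl differencing, iterated -/

set_option autoImplicit false

open Finset

namespace Pool.Agent.TH181.MW

open Pool.Agent.W928.MW (e sm e_add e_norm e_sub_re e_cont sm_le)

/-- lists of length `j` with entries in `S` -/
def LS (S : Finset ℤ) : ℕ → Finset (List ℤ)
  | 0 => {[]}
  | j + 1 => (S ×ˢ LS S j).image (fun p => p.1 :: p.2)

theorem cons_inj : Function.Injective (fun p : ℤ × List ℤ => p.1 :: p.2) := by
  rintro ⟨a, l⟩ ⟨b, l'⟩ h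
  simp only [List.cons.injEq] at h
  exact Prod.ext h.1 h.2

theorem LS_sum {M : Type*} [AddCommMonoid M] (S : Finset ℤ) (j : ℕ) (F : List ℤ → M) :
    ∑ l ∈ LS S (j + 1), F l = ∑ l ∈ LS S j, ∑ h ∈ S, F (h :: l) := by
  rw [LS, Finset.sum_image (fun a _ b _ h => cons_inj h), Finset.sum_product, Finset.sum_comm]

theorem LS_card (S : Finset ℤ) (j : ℕ) : (LS S j).card = S.card ^ j := by
  induction j with
  | zero => simp [LS]
  | succ j ih => rw [LS, Finset.card_image_of_injective _ cons_inj, Finset.card_product, ih, pow_succ, mul_comm]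

theorem mem_LS (S : Finset ℤ) (j : ℕ) (l : List ℤ) : l ∈ LS S j ↔ l.length = j ∧ ∀ h ∈ l, h ∈ S := by
  induction j generalizing l with
  | zero =>
    rw [LS, Finset.mem_singleton]
    constructor
    · rintro rfl; simp
    · rintro ⟨h, _⟩; exact List.length_eq_zero_iff.mp h
  | succ j ih =>
    rw [LS, Finset.mem_image]
    constructor
    · rintro ⟨⟨a, l'⟩, h1, rfl⟩
      rw [Finset.mem_product, ih] at h1
      obtain ⟨h2, h3, h4⟩ := h1
      refine ⟨by simp [h3], ?_⟩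
      intro h hh
      rw [List.mem_cons] at hh
      rcases hh with rfl | hh
      · exact h2
      · exact h4 h hh
    · rintro ⟨h1, h2⟩
      cases l with
      | nil => simp at h1
      | cons a l' =>
        refine ⟨(a, l'), ?_, rfl⟩
        rw [Finset.mem_product, ih]
        exact ⟨h2 a (by simp), by simpa using h1, fun h hh => h2 h (by simp [hh])⟩

theorem LS_zero (S : Finset ℤ) (j : ℕ) :
    ((LS S j).filter (fun l => (0 : ℤ) ∈ l)).card * S.card ≤ j * S.card ^ j := by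
  induction j with
  | zero => simp [LS]
  | succ j ih =>
    have h1 : ((LS S (j + 1)).filter (fun l => (0 : ℤ) ∈ l)).card ≤
        S.card ^ j + S.card * ((LS S j).filter (fun l => (0 : ℤ) ∈ l)).card := by
      have h2 : (LS S (j + 1)).filter (fun l => (0 : ℤ) ∈ l) ⊆
          (({0} : Finset ℤ) ×ˢ LS S j).image (fun p => p.1 :: p.2) ∪
          (S ×ˢ (LS S j).filter (fun l => (0 : ℤ) ∈ l)).image (fun p => p.1 :: p.2) := by
        intro l hl
        rw [Finset.mem_filter, LS, Finset.mem_image] at hl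
        obtain ⟨⟨⟨a, l'⟩, h3, rfl⟩, h4⟩ := hl
        rw [Finset.mem_product] at h3
        rw [Finset.mem_union, Finset.mem_image, Finset.mem_image]
        by_cases ha : a = 0
        · left
          exact ⟨(a, l'), by rw [Finset.mem_product]; exact ⟨by simp [ha], h3.2⟩, rfl⟩
        · right
          refine ⟨(a, l'), ?_, rfl⟩
          rw [Finset.mem_product, Finset.mem_filter]
          refine ⟨h3.1, h3.2, ?_⟩
          rw [List.mem_cons] at h4
          rcases h4 with h4 | h4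
          · exact absurd h4.symm ha
          · exact h4
      refine (Finset.card_le_card h2).trans ((Finset.card_union_le _ _).trans ?_)
      rw [Finset.card_image_of_injective _ cons_inj, Finset.card_image_of_injective _ cons_inj,
        Finset.card_product, Finset.card_product, LS_card, Finset.card_singleton, one_mul]
    calc ((LS S (j + 1)).filter (fun l => (0 : ℤ) ∈ l)).card * S.card
        ≤ (S.card ^ j + S.card * ((LS S j).filter (fun l => (0 : ℤ) ∈ l)).card) * S.card :=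
          Nat.mul_le_mul_right _ h1
      _ = S.card ^ (j + 1) + S.card * (((LS S j).filter (fun l => (0 : ℤ) ∈ l)).card * S.card) := by ring
      _ ≤ S.card ^ (j + 1) + S.card * (j * S.card ^ j) := by
          apply Nat.add_le_add_left
          exact Nat.mul_le_mul_left _ ih
      _ = (j + 1) * S.card ^ (j + 1) := by ring

/-- the range of summation after differencing -/
noncomputable def AA (N : ℕ) : List ℤ → Finset ℤ
  | [] => Icc 1 (N : ℤ)
  | h :: l => (AA N l).filter (fun n => n + h ∈ AA N l)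

/-- iterated differences -/
def ph (f : ℤ → ℤ) : List ℤ → ℤ → ℤ
  | [] => f
  | h :: l => fun n => ph f l (n + h) - ph f l n

theorem AA_sub (N : ℕ) (l : List ℤ) : AA N l ⊆ Icc 1 (N : ℤ) := by
  induction l with
  | nil => rw [AA]
  | cons h l ih =>
    rw [AA]
    exact (Finset.filter_subset _ _).trans ih

noncomputable def TT (k N : ℕ) (t ξ : ℝ) (l : List ℤ) : ℂ :=
  ∑ n ∈ AA N l, e (t * ((ph (fun n => n ^ k) l n : ℤ) : ℝ) + ξ * ((ph (fun n => n) l n : ℤ) : ℝ))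

theorem e_conj (x : ℝ) : (starRingEnd ℂ) (e x) = e (-x) := by
  unfold Pool.Agent.W928.MW.e
  rw [← Complex.exp_conj]
  congr 1
  simp only [map_mul, Complex.conj_ofReal, Complex.conj_I, map_ofNat]
  push_cast
  ring

/-- squaring out -/
theorem sq_out (N : ℕ) (A : Finset ℤ) (hA : A ⊆ Icc 1 (N : ℤ)) (f : ℤ → ℝ) :
    ((‖∑ n ∈ A, e (f n)‖ ^ 2 : ℝ) : ℂ) =
      ∑ h ∈ Icc (-(N : ℤ)) N, ∑ n ∈ A.filter (fun n => n + h ∈ A), e (f (n + h) - f n) := by
  have h1 : ((‖∑ n ∈ A, e (f n)‖ ^ 2 : ℝ) : ℂ) = (∑ n ∈ A, e (f n)) * (starRingEnd ℂ) (∑ n ∈ A, e (f n)) := by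
    rw [Complex.mul_conj, Complex.normSq_eq_norm_sq]
  rw [h1, map_sum, Finset.sum_mul_sum, Finset.sum_comm]
  have h2 : ∀ h ∈ Icc (-(N : ℤ)) N, ∑ n ∈ A.filter (fun n => n + h ∈ A), e (f (n + h) - f n) =
      ∑ n ∈ A, if n + h ∈ A then e (f (n + h) - f n) else 0 := fun h _ => Finset.sum_filter _ _
  rw [Finset.sum_congr rfl h2]
  conv_rhs => rw [Finset.sum_comm]
  apply Finset.sum_congr rfl
  intro n hn
  rw [← Finset.sum_filter]
  symm
  apply Finset.sum_nbij' (fun h => n + h) (fun n' => n' - n)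
  · intro h hh
    rw [Finset.mem_filter] at hh
    exact hh.2
  · intro n' hn'
    have g1 := Finset.mem_Icc.mp (hA hn)
    have g2 := Finset.mem_Icc.mp (hA hn')
    rw [Finset.mem_filter, Finset.mem_Icc]
    refine ⟨⟨by omega, by omega⟩, ?_⟩
    rw [add_sub_cancel]; exact hn'
  · intro h _; ring
  · intro n' _; ring
  · intro h _
    rw [e_conj, ← e_add]
    congr 1

theorem TT_sq (k N : ℕ) (t ξ : ℝ) (l : List ℤ) :
    ((‖TT k N t ξ l‖ ^ 2 : ℝ) : ℂ) = ∑ h ∈ Icc (-(N : ℤ)) N, TT k N t ξ (h :: l) := by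
  unfold TT
  rw [sq_out N (AA N l) (AA_sub N l)]
  apply Finset.sum_congr rfl
  intro h _
  rw [AA]
  apply Finset.sum_congr rfl
  intro n _
  congr 1
  simp only [ph]
  push_cast
  ring

theorem sm_TT (k N : ℕ) (t ξ : ℝ) : sm k N t ξ = TT k N t ξ [] := by
  unfold Pool.Agent.W928.MW.sm TT
  simp only [AA, ph]
  symm
  apply Finset.sum_nbij' (fun n : ℤ => n.toNat) (fun n : ℕ => (n : ℤ))
  · intro n hn
    rw [Finset.mem_Icc] at hn ⊢
    omega
  · intro n hn
    rw [Finset.mem_Icc] at hn ⊢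
    omega
  · intro n hn
    rw [Finset.mem_Icc] at hn
    exact Int.toNat_of_nonneg (by omega)
  · intro n _; simp
  · intro n hn
    rw [Finset.mem_Icc] at hn
    have h1 : ((n.toNat : ℕ) : ℤ) = n := Int.toNat_of_nonneg (by omega)
    have h2 : ((n.toNat : ℕ) : ℝ) = (n : ℝ) := by
      rw [← Int.cast_natCast, h1]
    rw [h2]
    push_cast
    rfl

theorem card_H (N : ℕ) : (Icc (-(N : ℤ)) N).card = 2 * N + 1 := by
  rw [Int.card_Icc]; omega

theorem weyl_step (k N j : ℕ) (t ξ : ℝ) :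
    (∑ l ∈ LS (Icc (-(N : ℤ)) N) j, ‖TT k N t ξ l‖) ^ 2 ≤
      (2 * (N : ℝ) + 1) ^ j * (∑ l ∈ LS (Icc (-(N : ℤ)) N) (j + 1), TT k N t ξ l).re := by
  have h1 := sq_sum_le_card_mul_sum_sq (s := LS (Icc (-(N : ℤ)) N) j) (f := fun l => ‖TT k N t ξ l‖)
  rw [LS_card, card_H] at h1
  have h2 : ∑ l ∈ LS (Icc (-(N : ℤ)) N) j, ‖TT k N t ξ l‖ ^ 2 =
      (∑ l ∈ LS (Icc (-(N : ℤ)) N) (j + 1), TT k N t ξ l).re := by
    rw [LS_sum, Complex.re_sum]
    apply Finset.sum_congr rfl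
    intro l _
    rw [← TT_sq, Complex.ofReal_re]
  rw [h2] at h1
  refine h1.trans (le_of_eq ?_)
  push_cast
  rfl

theorem TT_im (k N j : ℕ) (t ξ : ℝ) : (∑ l ∈ LS (Icc (-(N : ℤ)) N) (j + 1), TT k N t ξ l).im = 0 := by
  rw [LS_sum, Complex.im_sum]
  apply Finset.sum_eq_zero
  intro l _
  rw [← TT_sq, Complex.ofReal_im]

theorem two_pow_ge (j : ℕ) : j + 1 ≤ 2 ^ j := Nat.lt_two_pow_self

theorem weyl (k N j : ℕ) (t ξ : ℝ) :
    ‖sm k N t ξ‖ ^ (2 ^ j) ≤ (2 * (N : ℝ) + 1) ^ (2 ^ j - j - 1) *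
      ∑ l ∈ LS (Icc (-(N : ℤ)) N) j, ‖TT k N t ξ l‖ := by
  induction j with
  | zero => simp [LS, sm_TT]
  | succ j ih =>
    have h1 : ‖sm k N t ξ‖ ^ (2 ^ (j + 1)) = (‖sm k N t ξ‖ ^ (2 ^ j)) ^ 2 := by
      rw [← pow_mul, pow_succ]
    rw [h1]
    have h2 := pow_le_pow_left₀ (by positivity) ih 2
    refine h2.trans ?_
    rw [mul_pow]
    have h3 := weyl_step k N j t ξ
    have h4 : (∑ l ∈ LS (Icc (-(N : ℤ)) N) (j + 1), TT k N t ξ l).re ≤
        ∑ l ∈ LS (Icc (-(N : ℤ)) N) (j + 1), ‖TT k N t ξ l‖ :=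
      (Complex.re_le_norm _).trans (norm_sum_le _ _)
    have h5 : (2 * (N : ℝ) + 1) ^ j * (∑ l ∈ LS (Icc (-(N : ℤ)) N) (j + 1), TT k N t ξ l).re ≤
        (2 * (N : ℝ) + 1) ^ j * ∑ l ∈ LS (Icc (-(N : ℤ)) N) (j + 1), ‖TT k N t ξ l‖ :=
      mul_le_mul_of_nonneg_left h4 (by positivity)
    have h6 : 2 ^ (j + 1) - (j + 1) - 1 = (2 ^ j - j - 1) * 2 + j := by
      have := two_pow_ge j
      rw [pow_succ]; omega
    calc ((2 * (N : ℝ) + 1) ^ (2 ^ j - j - 1)) ^ 2 * (∑ l ∈ LS (Icc (-(N : ℤ)) N) j, ‖TT k N t ξ l‖) ^ 2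
        ≤ ((2 * (N : ℝ) + 1) ^ (2 ^ j - j - 1)) ^ 2 *
          ((2 * (N : ℝ) + 1) ^ j * ∑ l ∈ LS (Icc (-(N : ℤ)) N) (j + 1), ‖TT k N t ξ l‖) :=
          mul_le_mul_of_nonneg_left (h3.trans h5) (by positivity)
      _ = (2 * (N : ℝ) + 1) ^ (2 ^ (j + 1) - (j + 1) - 1) *
          ∑ l ∈ LS (Icc (-(N : ℤ)) N) (j + 1), ‖TT k N t ξ l‖ := by
          rw [h6, pow_add, pow_mul, mul_assoc]

theorem weyl' (k N j : ℕ) (t ξ : ℝ) :
    ‖sm k N t ξ‖ ^ (2 ^ (j + 1)) ≤ (2 * (N : ℝ) + 1) ^ (2 ^ (j + 1) - (j + 1) - 1) *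
      (∑ l ∈ LS (Icc (-(N : ℤ)) N) (j + 1), TT k N t ξ l).re := by
  have ih := weyl k N j t ξ
  have h1 : ‖sm k N t ξ‖ ^ (2 ^ (j + 1)) = (‖sm k N t ξ‖ ^ (2 ^ j)) ^ 2 := by
    rw [← pow_mul, pow_succ]
  rw [h1]
  have h2 := pow_le_pow_left₀ (by positivity) ih 2
  refine h2.trans ?_
  rw [mul_pow]
  have h3 := weyl_step k N j t ξ
  have h6 : 2 ^ (j + 1) - (j + 1) - 1 = (2 ^ j - j - 1) * 2 + j := by
    have := two_pow_ge j
    rw [pow_succ]; omega
  rw [h6, pow_add, pow_mul, mul_assoc]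
  exact mul_le_mul_of_nonneg_left h3 (by positivity)

theorem ph_id (l : List ℤ) (hl : 2 ≤ l.length) (n : ℤ) : ph (fun n => n) l n = 0 := by
  induction l generalizing n with
  | nil => simp at hl
  | cons h l ih =>
    rcases Nat.lt_or_ge l.length 2 with h1 | h1
    · have h2 : l.length = 1 := by
        rw [List.length_cons] at hl; omega
      obtain ⟨a, rfl⟩ := List.length_eq_one_iff.mp h2
      simp only [ph]
      ring
    · simp only [ph]
      rw [ih h1, ih h1, sub_self]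

end Pool.Agent.TH181.MW
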