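import Pool.Agent.TH181.MW.HuaA
import Pool.Agent.Helper112.Arith

/-! # values of the iterated differences of `n^k` -/

set_option autoImplicit false

open Finset

namespace Pool.Agent.TH181.MW

open Polynomial in
theorem diff_deg (P : ℤ[X]) (d : ℕ) (hP : P.natDegree = d + 1) (h : ℤ) (hh : h ≠ 0) :
    (P.comp (X + C h) - P).natDegree = d := by
  rw [← taylor_apply]
  have hlc : P.coeff (d + 1) ≠ 0 := by
    rw [← hP]
    have : P ≠ 0 := by
      intro h0; rw [h0, natDegree_zero] at hP; omega
    exact leadingCoeff_ne_zero.mpr this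
  apply le_antisymm
  · rw [natDegree_le_iff_coeff_eq_zero]
    intro n hn
    rw [coeff_sub]
    rcases Nat.lt_or_ge (d + 1) n with h1 | h1
    · rw [coeff_eq_zero_of_natDegree_lt (by rw [natDegree_taylor]; omega),
        coeff_eq_zero_of_natDegree_lt (by omega), sub_self]
    · have h2 : n = P.natDegree := by omega
      rw [h2, coeff_taylor_natDegree, coeff_natDegree, sub_self]
  · apply le_natDegree_of_ne_zero
    rw [coeff_sub, taylor_coeff]
    have h1 : (hasseDeriv d P).natDegree < 2 := by
      have := natDegree_hasseDeriv_le P d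
      omega
    rw [eval_eq_sum_range' h1, Finset.sum_range_succ, Finset.sum_range_succ, Finset.sum_range_zero,
      hasseDeriv_coeff, hasseDeriv_coeff]
    rw [zero_add, zero_add, Nat.choose_self, pow_zero, pow_one, Nat.cast_one, one_mul, mul_one]
    have h2 : ((1 + d).choose d : ℤ) = (d : ℤ) + 1 := by
      rw [add_comm, Nat.choose_succ_self_right]; push_cast; ring
    rw [h2, add_comm 1 d, add_sub_cancel_left]
    have h3 : (d : ℤ) + 1 ≠ 0 := by positivity
    exact mul_ne_zero (mul_ne_zero h3 hlc) hh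

open Polynomial in
/-- the polynomial of the iterated difference -/
noncomputable def PP (k : ℕ) : List ℤ → ℤ[X]
  | [] => X ^ k
  | h :: l => (PP k l).comp (X + C h) - PP k l

open Polynomial in
theorem PP_eval (k : ℕ) (l : List ℤ) (n : ℤ) : (PP k l).eval n = ph (fun n => n ^ k) l n := by
  induction l generalizing n with
  | nil => simp [PP, ph]
  | cons h l ih =>
    simp only [PP, ph]
    rw [eval_sub, eval_comp, eval_add, eval_X, eval_C, ih, ih]

open Polynomial in
theorem PP_deg (k : ℕ) (l : List ℤ) (h0 : (0 : ℤ) ∉ l) (hl : l.length ≤ k) :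
    (PP k l).natDegree = k - l.length := by
  induction l with
  | nil => simp [PP]
  | cons h l ih =>
    rw [List.mem_cons, not_or] at h0
    rw [List.length_cons] at hl ⊢
    simp only [PP]
    have h1 := ih h0.2 (by omega)
    have h2 := diff_deg (PP k l) (k - l.length - 1) (by omega) h (Ne.symm h0.1)
    rw [h2]; omega

theorem ph_dvd (k : ℕ) (l : List ℤ) (h : ℤ) (hh : h ∈ l) (n : ℤ) : h ∣ ph (fun n => n ^ k) l n := by
  induction l generalizing n with
  | nil => simp at hh
  | cons a l ih =>
    rw [List.mem_cons] at hh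
    simp only [ph]
    rcases hh with rfl | hh
    · rw [← PP_eval, ← PP_eval]
      have := Polynomial.sub_dvd_eval_sub (n + h) n (PP k l)
      rwa [add_sub_cancel_left] at this
    · exact dvd_sub (ih hh _) (ih hh _)

theorem ph_le (k N : ℕ) (l : List ℤ) (n : ℤ) (hn : n ∈ AA N l) :
    |ph (fun n => n ^ k) l n| ≤ 2 ^ l.length * (N : ℤ) ^ k := by
  induction l generalizing n with
  | nil =>
    simp only [AA] at hn
    rw [Finset.mem_Icc] at hn
    simp only [ph, List.length_nil, pow_zero, one_mul]
    rw [abs_pow]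
    apply pow_le_pow_left₀ (abs_nonneg _)
    rw [abs_le]; constructor <;> omega
  | cons h l ih =>
    simp only [AA] at hn
    rw [Finset.mem_filter] at hn
    simp only [ph, List.length_cons]
    have h1 := ih _ hn.1
    have h2 := ih _ hn.2
    have h3 := abs_sub (ph (fun n => n ^ k) l (n + h)) (ph (fun n => n ^ k) l n)
    rw [pow_succ]
    linarith

theorem AA_card (N : ℕ) (l : List ℤ) : (AA N l).card ≤ N := by
  refine (Finset.card_le_card (AA_sub N l)).trans ?_
  rw [Int.card_Icc]; omega

/-- number of `n` with a given value of the iterated difference, all differences nonzero -/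
theorem cnt_le (k N : ℕ) (l : List ℤ) (h0 : (0 : ℤ) ∉ l) (hl : l.length < k) (m : ℤ) :
    ((AA N l).filter (fun n => ph (fun n => n ^ k) l n = m)).card ≤ k := by
  classical
  have h1 := PP_deg k l h0 hl.le
  have h2 : 0 < (PP k l).degree := by
    rw [← Polynomial.natDegree_pos_iff_degree_pos]; omega
  have h3 := Polynomial.card_roots_sub_C' (p := PP k l) (a := m) h2
  have h4 : PP k l - Polynomial.C m ≠ 0 := by
    intro h
    have : PP k l = Polynomial.C m := sub_eq_zero.mp h
    rw [this, Polynomial.natDegree_C] at h1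
    omega
  have h5 : (AA N l).filter (fun n => ph (fun n => n ^ k) l n = m) ⊆ (PP k l - Polynomial.C m).roots.toFinset := by
    intro n hn
    rw [Finset.mem_filter] at hn
    rw [Multiset.mem_toFinset, Polynomial.mem_roots h4, Polynomial.IsRoot, Polynomial.eval_sub, Polynomial.eval_C,
      PP_eval, hn.2, sub_self]
  refine (Finset.card_le_card h5).trans ((Multiset.toFinset_card_le _).trans (h3.trans ?_))
  omega

/-- the index set of the differenced sum -/
noncomputable def Lam (N j : ℕ) : Finset (Σ _ : List ℤ, ℤ) := (LS (Icc (-(N : ℤ)) N) j).sigma (fun l => AA N l)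

theorem Lam_card (N j : ℕ) : (Lam N j).card ≤ (2 * N + 1) ^ j * N := by
  unfold Lam
  rw [Finset.card_sigma]
  calc ∑ l ∈ LS (Icc (-(N : ℤ)) N) j, (AA N l).card ≤ ∑ _l ∈ LS (Icc (-(N : ℤ)) N) j, N :=
        Finset.sum_le_sum (fun l _ => AA_card N l)
    _ = (2 * N + 1) ^ j * N := by
        rw [Finset.sum_const, LS_card, card_H, smul_eq_mul]

theorem Lam_zero (k N j : ℕ) (hj : j < k) :
    ((Lam N j).filter (fun z => ph (fun n => n ^ k) z.1 z.2 = 0)).card ≤ (j + k) * (2 * N + 1) ^ j := by
  have h1 : ((Lam N j).filter (fun z => ph (fun n => n ^ k) z.1 z.2 = 0)).card =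
      ∑ l ∈ LS (Icc (-(N : ℤ)) N) j, ((AA N l).filter (fun n => ph (fun n => n ^ k) l n = 0)).card := by
    rw [← Finset.card_sigma]
    congr 1
    ext z
    unfold Lam
    simp only [Finset.mem_filter, Finset.mem_sigma]
    tauto
  rw [h1, ← Finset.sum_filter_add_sum_filter_not (LS (Icc (-(N : ℤ)) N) j) (fun l => (0 : ℤ) ∈ l)]
  have h2 : ∑ l ∈ (LS (Icc (-(N : ℤ)) N) j).filter (fun l => (0 : ℤ) ∈ l),
      ((AA N l).filter (fun n => ph (fun n => n ^ k) l n = 0)).card ≤ j * (2 * N + 1) ^ j := by
    calc ∑ l ∈ (LS (Icc (-(N : ℤ)) N) j).filter (fun l => (0 : ℤ) ∈ l),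
        ((AA N l).filter (fun n => ph (fun n => n ^ k) l n = 0)).card
        ≤ ∑ _l ∈ (LS (Icc (-(N : ℤ)) N) j).filter (fun l => (0 : ℤ) ∈ l), (2 * N + 1) := by
          apply Finset.sum_le_sum
          intro l _
          have := (Finset.card_filter_le (AA N l) (fun n => ph (fun n => n ^ k) l n = 0)).trans (AA_card N l)
          omega
      _ = ((LS (Icc (-(N : ℤ)) N) j).filter (fun l => (0 : ℤ) ∈ l)).card * (2 * N + 1) := by
          rw [Finset.sum_const, smul_eq_mul]
      _ ≤ j * (2 * N + 1) ^ j := by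
          have := LS_zero (Icc (-(N : ℤ)) N) j
          rwa [card_H] at this
  have h3 : ∑ l ∈ (LS (Icc (-(N : ℤ)) N) j).filter (fun l => ¬ (0 : ℤ) ∈ l),
      ((AA N l).filter (fun n => ph (fun n => n ^ k) l n = 0)).card ≤ k * (2 * N + 1) ^ j := by
    calc ∑ l ∈ (LS (Icc (-(N : ℤ)) N) j).filter (fun l => ¬ (0 : ℤ) ∈ l),
        ((AA N l).filter (fun n => ph (fun n => n ^ k) l n = 0)).card
        ≤ ∑ _l ∈ (LS (Icc (-(N : ℤ)) N) j).filter (fun l => ¬ (0 : ℤ) ∈ l), k := by
          apply Finset.sum_le_sum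
          intro l hl
          rw [Finset.mem_filter, mem_LS] at hl
          exact cnt_le k N l hl.2 (by rw [hl.1.1]; exact hj) 0
      _ ≤ (2 * N + 1) ^ j * k := by
          rw [Finset.sum_const, smul_eq_mul]
          apply Nat.mul_le_mul_right
          refine (Finset.card_filter_le _ _).trans (le_of_eq ?_)
          rw [LS_card, card_H]
      _ = k * (2 * N + 1) ^ j := mul_comm _ _
  calc _ ≤ j * (2 * N + 1) ^ j + k * (2 * N + 1) ^ j := Nat.add_le_add h2 h3
    _ = (j + k) * (2 * N + 1) ^ j := by ring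

theorem Lam_nonzero (k N j D : ℕ) (hj : j < k) (m : ℤ) (hm : m ≠ 0) (hD : m.natAbs.divisors.card ≤ D) :
    ((Lam N j).filter (fun z => ph (fun n => n ^ k) z.1 z.2 = m)).card ≤ (2 * D) ^ j * k := by
  set S' : Finset ℤ := (m.natAbs.divisors).image (fun d : ℕ => (d : ℤ)) ∪
    (m.natAbs.divisors).image (fun d : ℕ => -(d : ℤ)) with hS'
  have hS'card : S'.card ≤ 2 * D := by
    have h2 := Finset.card_union_le ((m.natAbs.divisors).image (fun d : ℕ => (d : ℤ)))
      ((m.natAbs.divisors).image (fun d : ℕ => -(d : ℤ)))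
    have h3 : ((m.natAbs.divisors).image (fun d : ℕ => (d : ℤ))).card ≤ m.natAbs.divisors.card :=
      Finset.card_image_le
    have h4 : ((m.natAbs.divisors).image (fun d : ℕ => -(d : ℤ))).card ≤ m.natAbs.divisors.card :=
      Finset.card_image_le
    rw [← hS'] at h2
    omega
  have h1 : (Lam N j).filter (fun z => ph (fun n => n ^ k) z.1 z.2 = m) ⊆
      ((LS S' j).filter (fun l => (0 : ℤ) ∉ l)).sigma
        (fun l => (AA N l).filter (fun n => ph (fun n => n ^ k) l n = m)) := by
    intro z hz
    unfold Lam at hz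
    rw [Finset.mem_filter, Finset.mem_sigma, mem_LS] at hz
    obtain ⟨⟨⟨a1, _⟩, a3⟩, a4⟩ := hz
    rw [Finset.mem_sigma, Finset.mem_filter, Finset.mem_filter, mem_LS]
    have h5 : ∀ h ∈ z.1, h ∣ m := fun h hh => by
      rw [← a4]; exact ph_dvd k z.1 h hh z.2
    refine ⟨⟨⟨a1, ?_⟩, ?_⟩, a3, a4⟩
    · intro h hh
      have h6 : h.natAbs ∈ m.natAbs.divisors := by
        rw [Nat.mem_divisors]
        exact ⟨Int.natAbs_dvd_natAbs.mpr (h5 h hh), Int.natAbs_ne_zero.mpr hm⟩
      rw [hS', Finset.mem_union, Finset.mem_image, Finset.mem_image]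
      rcases le_total 0 h with h0 | h0
      · left; exact ⟨_, h6, by omega⟩
      · right; exact ⟨_, h6, by omega⟩
    · intro h0
      have := h5 0 h0
      rw [zero_dvd_iff] at this
      exact hm this
  refine (Finset.card_le_card h1).trans ?_
  rw [Finset.card_sigma]
  calc ∑ l ∈ (LS S' j).filter (fun l => (0 : ℤ) ∉ l), ((AA N l).filter (fun n => ph (fun n => n ^ k) l n = m)).card
      ≤ ∑ _l ∈ (LS S' j).filter (fun l => (0 : ℤ) ∉ l), k := by
        apply Finset.sum_le_sum
        intro l hl
        rw [Finset.mem_filter, mem_LS] at hl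
        exact cnt_le k N l hl.2 (by rw [hl.1.1]; exact hj) m
    _ ≤ (2 * D) ^ j * k := by
        rw [Finset.sum_const, smul_eq_mul]
        apply Nat.mul_le_mul_right
        refine (Finset.card_filter_le _ _).trans ?_
        rw [LS_card]
        exact Nat.pow_le_pow_left hS'card j

end Pool.Agent.TH181.MW
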