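import Pool.Agent.TH181.MW.HuaB
import Pool.Agent.TH181.MW.Count

/-! # positive trigonometric majorants of the powers of the Weyl sum -/

set_option autoImplicit false

open Finset MeasureTheory

namespace Pool.Agent.TH181.MW

open Pool.Agent.W928.MW (e sm e_add e_norm e_sub_re e_cont sm_le)

/-- a positive trigonometric majorant of the power `2^j+2` of the Weyl sum, uniform in the linear coefficient,
with small constant coefficient -/
def Good (k j : ℕ) : Prop := ∀ η : ℝ, 0 < η → ∃ C : ℝ, 0 < C ∧ ∀ N : ℕ, 1 ≤ N →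
  ∃ (ι : Type) (I : Finset ι) (m : ι → ℤ) (lam : ℝ), 0 ≤ lam ∧
    (∀ t : ℝ, (∑ i ∈ I, e (t * (m i : ℝ))).im = 0) ∧
    (∀ t ξ : ℝ, ‖sm k N t ξ‖ ^ (2 ^ j + 2) ≤ lam * (∑ i ∈ I, e (t * (m i : ℝ))).re) ∧
    lam * (I.card : ℝ) ≤ C * (N : ℝ) ^ (2 ^ j + 2) ∧
    lam * ((I.filter (fun i => m i = 0)).card : ℝ) ≤ C * (N : ℝ) ^ ((2 : ℝ) ^ j + 2 - j + η)

/-- index set of the sixth moment -/
def I3 (N : ℕ) : Finset ((Fin 3 → ℕ) × (Fin 3 → ℕ)) :=
  ((tup 3 N) ×ˢ (tup 3 N)).filter (fun z => ∑ i, z.1 i = ∑ i, z.2 i)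

def m3 (k : ℕ) (z : (Fin 3 → ℕ) × (Fin 3 → ℕ)) : ℤ :=
  ((∑ i, z.1 i ^ k : ℕ) : ℤ) - ((∑ i, z.2 i ^ k : ℕ) : ℤ)

theorem Q3_eq (k N : ℕ) (t : ℝ) : ((Q 3 k N t : ℝ) : ℂ) = ∑ z ∈ I3 N, e (t * ((m3 k z : ℤ) : ℝ)) := by
  rw [← Finset.sum_fiberwise_of_maps_to (s := I3 N) (t := range (3 * N + 1))
    (g := fun z : (Fin 3 → ℕ) × (Fin 3 → ℕ) => ∑ i, z.1 i)]
  · unfold Q
    rw [Complex.ofReal_sum]
    apply Finset.sum_congr rfl
    intro m _
    have h1 : ((‖p 3 k N m t‖ ^ 2 : ℝ) : ℂ) = p 3 k N m t * (starRingEnd ℂ) (p 3 k N m t) := by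
      rw [Complex.mul_conj, Complex.normSq_eq_norm_sq]
    rw [h1]
    have h2 : (I3 N).filter (fun z => ∑ i, z.1 i = m) = prs 3 N m ×ˢ prs 3 N m := by
      ext z
      unfold I3 prs
      simp only [Finset.mem_filter, Finset.mem_product]
      constructor
      · rintro ⟨⟨⟨a1, b1⟩, c⟩, d⟩
        exact ⟨⟨a1, d⟩, b1, c.symm.trans d⟩
      · rintro ⟨⟨a1, d⟩, b1, c⟩
        exact ⟨⟨⟨a1, b1⟩, d.trans c.symm⟩, d⟩
    rw [h2]
    unfold p
    rw [map_sum, Finset.sum_mul_sum, ← Finset.sum_product']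
    apply Finset.sum_congr rfl
    intro z _
    rw [e_conj, ← e_add]
    congr 1
    unfold m3
    push_cast
    ring
  · intro z hz
    unfold I3 at hz
    rw [Finset.mem_filter, Finset.mem_product] at hz
    rw [Finset.mem_range]
    have := tup_sum_le 3 N z.1 hz.1.1
    omega

theorem I3_card (N : ℕ) : (I3 N).card ≤ N ^ 5 := by
  have h1 : (I3 N).card ≤ ((Icc 1 N ×ˢ (Icc 1 N ×ˢ Icc 1 N)) ×ˢ (Icc 1 N ×ˢ Icc 1 N)).card := by
    apply Finset.card_le_card_of_injOn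
      (fun z => ((z.1 0, (z.1 1, z.1 2)), (z.2 0, z.2 1)))
    · intro z hz
      rw [Finset.mem_coe] at hz
      unfold I3 tup at hz
      rw [Finset.mem_filter, Finset.mem_product, Fintype.mem_piFinset, Fintype.mem_piFinset] at hz
      obtain ⟨⟨a, b⟩, _⟩ := hz
      rw [Finset.mem_coe]
      simp only [Finset.mem_product]
      exact ⟨⟨a 0, a 1, a 2⟩, b 0, b 1⟩
    · intro z hz w hw hzw
      rw [Finset.mem_coe] at hz hw
      unfold I3 at hz hw
      rw [Finset.mem_filter, Fin.sum_univ_three, Fin.sum_univ_three] at hz hw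
      simp only [Prod.mk.injEq] at hzw
      obtain ⟨⟨c0, c1, c2⟩, c3, c4⟩ := hzw
      have c5 : z.2 2 = w.2 2 := by
        have := hz.2
        have := hw.2
        omega
      apply Prod.ext
      · funext i; fin_cases i <;> [exact c0; exact c1; exact c2]
      · funext i; fin_cases i <;> [exact c3; exact c4; exact c5]
  refine h1.trans (le_of_eq ?_)
  simp only [Finset.card_product, Nat.card_Icc]
  rw [Nat.add_sub_cancel]; ring

theorem good_two (k : ℕ) (hk : 2 ≤ k) : Good k 2 := by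
  intro η hη
  obtain ⟨C1, hC1, hJ⟩ := J3 k hk η hη
  refine ⟨4 + 4 * C1, by positivity, fun N hN => ?_⟩
  have hN' : (1 : ℝ) ≤ (N : ℝ) := by exact_mod_cast hN
  have hN0 : (0 : ℝ) < (N : ℝ) := by linarith
  refine ⟨_, I3 N, m3 k, 3 * (N : ℝ) + 1, by positivity, ?_, ?_, ?_, ?_⟩
  · intro t
    rw [← Q3_eq, Complex.ofReal_im]
  · intro t ξ
    rw [← Q3_eq, Complex.ofReal_re]
    have := sup 3 k N t ξ
    norm_num at this ⊢
    exact this
  · have h1 : ((I3 N).card : ℝ) ≤ (N : ℝ) ^ 5 := by exact_mod_cast I3_card N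
    norm_num
    calc (3 * (N : ℝ) + 1) * ((I3 N).card : ℝ) ≤ (4 * N) * (N : ℝ) ^ 5 :=
          mul_le_mul (by linarith) h1 (by positivity) (by positivity)
      _ = 4 * (N : ℝ) ^ 6 := by ring
      _ ≤ (4 + 4 * C1) * (N : ℝ) ^ 6 := by
          apply mul_le_mul_of_nonneg_right _ (by positivity)
          linarith
  · have h1 : (I3 N).filter (fun z => m3 k z = 0) = ((tup 3 N) ×ˢ (tup 3 N)).filter
        (fun z => ∑ i, z.1 i = ∑ i, z.2 i ∧ ∑ i, z.1 i ^ k = ∑ i, z.2 i ^ k) := by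
      unfold I3
      rw [Finset.filter_filter]
      apply Finset.filter_congr
      intro z _
      unfold m3
      rw [sub_eq_zero, Nat.cast_inj]
    rw [h1]
    have h2 := hJ N hN
    unfold J at h2
    calc (3 * (N : ℝ) + 1) * ((((tup 3 N) ×ˢ (tup 3 N)).filter
        (fun z => ∑ i, z.1 i = ∑ i, z.2 i ∧ ∑ i, z.1 i ^ k = ∑ i, z.2 i ^ k)).card : ℝ)
        ≤ (4 * N) * (C1 * (N : ℝ) ^ (3 + η)) := mul_le_mul (by linarith) h2 (by positivity) (by positivity)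
      _ = 4 * C1 * (N : ℝ) ^ ((2 : ℝ) ^ 2 + 2 - (2 : ℕ) + η) := by
          have : (2 : ℝ) ^ 2 + 2 - (2 : ℕ) + η = 1 + (3 + η) := by norm_num; ring
          rw [this, Real.rpow_add hN0 1 (3 + η), Real.rpow_one]
          ring
      _ ≤ (4 + 4 * C1) * (N : ℝ) ^ ((2 : ℝ) ^ 2 + 2 - (2 : ℕ) + η) := by
          apply mul_le_mul_of_nonneg_right _ (by positivity)
          linarith

theorem Lam_sum (k N j : ℕ) (hj : 2 ≤ j) (t ξ : ℝ) :
    ∑ z ∈ Lam N j, e (t * ((ph (fun n => n ^ k) z.1 z.2 : ℤ) : ℝ)) =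
      ∑ l ∈ LS (Icc (-(N : ℤ)) N) j, TT k N t ξ l := by
  unfold Lam
  rw [Finset.sum_sigma]
  apply Finset.sum_congr rfl
  intro l hl
  rw [mem_LS] at hl
  unfold TT
  apply Finset.sum_congr rfl
  intro n _
  rw [ph_id l (by omega)]
  congr 1
  push_cast
  ring

theorem zero_count {ι : Type} (I : Finset ι) (m : ι → ℤ) (k N j D : ℕ) (hj : j < k)
    (hD : ∀ n : ℕ, 1 ≤ n → n ≤ 2 ^ j * N ^ k → n.divisors.card ≤ D) :
    ((I ×ˢ Lam N j).filter (fun z => m z.1 + ph (fun n => n ^ k) z.2.1 z.2.2 = 0)).card ≤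
      (I.filter (fun i => m i = 0)).card * ((j + k) * (2 * N + 1) ^ j) + I.card * ((2 * D) ^ j * k) := by
  classical
  have h1 : ((I ×ˢ Lam N j).filter (fun z => m z.1 + ph (fun n => n ^ k) z.2.1 z.2.2 = 0)).card =
      ∑ i ∈ I, ((Lam N j).filter (fun z => ph (fun n => n ^ k) z.1 z.2 = - m i)).card := by
    rw [← Finset.card_sigma]
    apply Finset.card_nbij' (fun z => (⟨z.1, z.2⟩ : Σ _ : ι, (Σ _ : List ℤ, ℤ))) (fun z => (z.1, z.2))
    · intro z hz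
      rw [Finset.mem_coe, Finset.mem_filter, Finset.mem_product] at hz
      rw [Finset.mem_coe, Finset.mem_sigma, Finset.mem_filter]
      exact ⟨hz.1.1, hz.1.2, by linarith [hz.2]⟩
    · intro z hz
      rw [Finset.mem_coe, Finset.mem_sigma, Finset.mem_filter] at hz
      rw [Finset.mem_coe, Finset.mem_filter, Finset.mem_product]
      refine ⟨⟨hz.1, hz.2.1⟩, ?_⟩
      simp only
      linarith [hz.2.2]
    · intro z _; rfl
    · intro z _; rfl
  rw [h1, ← Finset.sum_filter_add_sum_filter_not I (fun i => m i = 0)]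
  apply Nat.add_le_add
  · calc ∑ i ∈ I.filter (fun i => m i = 0), ((Lam N j).filter (fun z => ph (fun n => n ^ k) z.1 z.2 = - m i)).card
        ≤ ∑ _i ∈ I.filter (fun i => m i = 0), (j + k) * (2 * N + 1) ^ j := by
          apply Finset.sum_le_sum
          intro i hi
          rw [Finset.mem_filter] at hi
          rw [hi.2, neg_zero]
          exact Lam_zero k N j hj
      _ = _ := by rw [Finset.sum_const, smul_eq_mul]
  · calc ∑ i ∈ I.filter (fun i => ¬ m i = 0), ((Lam N j).filter (fun z => ph (fun n => n ^ k) z.1 z.2 = - m i)).card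
        ≤ ∑ _i ∈ I.filter (fun i => ¬ m i = 0), (2 * D) ^ j * k := by
          apply Finset.sum_le_sum
          intro i hi
          rw [Finset.mem_filter] at hi
          rcases Finset.eq_empty_or_nonempty ((Lam N j).filter (fun z => ph (fun n => n ^ k) z.1 z.2 = - m i)) with h2 | h2
          · rw [h2, Finset.card_empty]; exact Nat.zero_le _
          · obtain ⟨z, hz⟩ := h2
            rw [Finset.mem_filter] at hz
            have hz1 := hz.1
            unfold Lam at hz1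
            rw [Finset.mem_sigma, mem_LS] at hz1
            have h3 := ph_le k N z.1 z.2 hz1.2
            rw [hz.2, hz1.1.1, abs_neg] at h3
            have h4 : (-(m i)).natAbs ≤ 2 ^ j * N ^ k := by
              rw [Int.natAbs_neg]
              have : ((m i).natAbs : ℤ) ≤ ((2 ^ j * N ^ k : ℕ) : ℤ) := by
                rw [Int.natCast_natAbs]; push_cast; exact h3
              exact_mod_cast this
            have h5 : -(m i) ≠ 0 := neg_ne_zero.mpr hi.2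
            exact Lam_nonzero k N j D hj _ h5 (hD _ (by have := Int.natAbs_ne_zero.mpr h5; omega) h4)
      _ = (I.filter (fun i => ¬ m i = 0)).card * ((2 * D) ^ j * k) := by rw [Finset.sum_const, smul_eq_mul]
      _ ≤ I.card * ((2 * D) ^ j * k) := Nat.mul_le_mul_right _ (Finset.card_filter_le _ _)

theorem good_step (k j : ℕ) (hj2 : 2 ≤ j) (hjk : j < k) (hG : Good k j) : Good k (j + 1) := by
  intro η hη
  have hk0 : (0 : ℝ) < k := by
    have : 0 < k := by omega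
    exact_mod_cast this
  obtain ⟨C1, hC1, hG1⟩ := hG η hη
  set δ : ℝ := η / (k * (j + 1)) with hδ
  have hδ0 : 0 < δ := by positivity
  obtain ⟨C0, hC0, hC⟩ := Pool.Agent.Helper112.divisor_bound δ hδ0
  set P : ℕ := 2 ^ j - j - 1 with hP
  set C2 : ℝ := (2 * (C0 * ((2 : ℝ) ^ j) ^ δ)) ^ j with hC2
  have hC2' : 0 < C2 := by positivity
  refine ⟨C1 * (3 ^ P * ((j + k) * 3 ^ j + C2 * k) + 3 ^ (2 ^ j)), by positivity, fun N hN => ?_⟩
  have hN' : (1 : ℝ) ≤ (N : ℝ) := by exact_mod_cast hN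
  have hN0 : (0 : ℝ) < (N : ℝ) := by linarith
  obtain ⟨ι, I, m, lam, hlam, him, hpt, hcard, hzero⟩ := hG1 N hN
  set D : ℕ := ⌊C0 * ((2 : ℝ) ^ j * (N : ℝ) ^ k) ^ δ⌋₊ with hD
  have hDb : ∀ n : ℕ, 1 ≤ n → n ≤ 2 ^ j * N ^ k → n.divisors.card ≤ D := by
    intro n hn hn2
    rw [hD]
    apply Nat.le_floor
    refine (hC n hn).trans ?_
    apply mul_le_mul_of_nonneg_left _ hC0.le
    apply Real.rpow_le_rpow (by positivity) _ hδ0.le
    exact_mod_cast hn2
  have hDr : (2 * (D : ℝ)) ^ j ≤ C2 * (N : ℝ) ^ η := by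
    have h1 : (D : ℝ) ≤ C0 * ((2 : ℝ) ^ j * (N : ℝ) ^ k) ^ δ := Nat.floor_le (by positivity)
    have h2 : ((2 : ℝ) ^ j * (N : ℝ) ^ k) ^ δ = ((2 : ℝ) ^ j) ^ δ * (N : ℝ) ^ (k * δ) := by
      rw [Real.mul_rpow (by positivity) (by positivity), ← Real.rpow_natCast (N : ℝ) k, ← Real.rpow_mul hN0.le]
    have h3 : 2 * (D : ℝ) ≤ 2 * (C0 * ((2 : ℝ) ^ j) ^ δ) * (N : ℝ) ^ (k * δ) := by
      rw [h2] at h1
      calc 2 * (D : ℝ) ≤ 2 * (C0 * (((2 : ℝ) ^ j) ^ δ * (N : ℝ) ^ (k * δ))) := by linarith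
        _ = _ := by ring
    have h4 := pow_le_pow_left₀ (by positivity) h3 j
    refine h4.trans ?_
    rw [mul_pow, ← hC2]
    apply mul_le_mul_of_nonneg_left _ hC2'.le
    rw [← Real.rpow_natCast ((N : ℝ) ^ (k * δ)) j, ← Real.rpow_mul hN0.le]
    apply Real.rpow_le_rpow_of_exponent_le hN'
    have h5 : (k : ℝ) * δ * j = η * (j / (j + 1)) := by
      rw [hδ]; field_simp
    rw [h5]
    have h6 : (j : ℝ) / (j + 1) ≤ 1 := by
      rw [div_le_one (by positivity)]; linarith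
    have := mul_le_mul_of_nonneg_left h6 hη.le
    linarith
  have hPj : P + j + 1 = 2 ^ j := by
    have := two_pow_ge j
    omega
  have hH : (2 * (N : ℝ) + 1) ≤ 3 * N := by linarith
  have hHP : (2 * (N : ℝ) + 1) ^ P ≤ 3 ^ P * (N : ℝ) ^ P := by
    rw [← mul_pow]; exact pow_le_pow_left₀ (by positivity) hH P
  have hHj : (2 * (N : ℝ) + 1) ^ j ≤ 3 ^ j * (N : ℝ) ^ j := by
    rw [← mul_pow]; exact pow_le_pow_left₀ (by positivity) hH j
  -- the new trigonometric polynomial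
  have hprod : ∀ t : ℝ, ∑ z ∈ I ×ˢ Lam N j, e (t * (((m z.1 + ph (fun n => n ^ k) z.2.1 z.2.2 : ℤ)) : ℝ)) =
      (∑ i ∈ I, e (t * (m i : ℝ))) * (∑ z ∈ Lam N j, e (t * ((ph (fun n => n ^ k) z.1 z.2 : ℤ) : ℝ))) := by
    intro t
    rw [Finset.sum_mul_sum, ← Finset.sum_product']
    apply Finset.sum_congr rfl
    intro z _
    rw [← e_add]
    congr 1
    push_cast
    ring
  obtain ⟨j', rfl⟩ : ∃ j', j = j' + 1 := ⟨j - 1, by omega⟩
  have hWim : ∀ t : ℝ, (∑ z ∈ Lam N (j' + 1), e (t * ((ph (fun n => n ^ k) z.1 z.2 : ℤ) : ℝ))).im = 0 := by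
    intro t
    rw [Lam_sum k N (j' + 1) hj2 t 0]
    exact TT_im k N j' t 0
  refine ⟨ι × (Σ _ : List ℤ, ℤ), I ×ˢ Lam N (j' + 1),
    fun z => m z.1 + ph (fun n => n ^ k) z.2.1 z.2.2, lam * (2 * (N : ℝ) + 1) ^ P, by positivity, ?_, ?_, ?_, ?_⟩
  · intro t
    rw [hprod, Complex.mul_im, him, hWim]
    ring
  · intro t ξ
    rw [hprod, Complex.mul_re, him, hWim]
    have h1 := hpt t ξ
    have h2 := weyl' k N j' t ξ
    rw [← Lam_sum k N (j' + 1) hj2 t ξ, ← hP] at h2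
    have h3 : ‖sm k N t ξ‖ ^ (2 ^ (j' + 1 + 1) + 2) =
        ‖sm k N t ξ‖ ^ (2 ^ (j' + 1) + 2) * ‖sm k N t ξ‖ ^ (2 ^ (j' + 1)) := by
      rw [← pow_add]
      congr 1
      rw [pow_succ 2 (j' + 1)]; ring
    rw [h3]
    have h4 := mul_le_mul h1 h2 (by positivity) ((by positivity : (0 : ℝ) ≤ ‖sm k N t ξ‖ ^ (2 ^ (j' + 1) + 2)).trans h1)
    refine h4.trans (le_of_eq ?_)
    ring
  · rw [Finset.card_product]
    push_cast
    have h1 : ((Lam N (j' + 1)).card : ℝ) ≤ (2 * (N : ℝ) + 1) ^ (j' + 1) * N := by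
      exact_mod_cast Lam_card N (j' + 1)
    have h2 : (2 * (N : ℝ) + 1) ^ P * ((Lam N (j' + 1)).card : ℝ) ≤ 3 ^ (2 ^ (j' + 1)) * (N : ℝ) ^ (2 ^ (j' + 1)) := by
      calc (2 * (N : ℝ) + 1) ^ P * ((Lam N (j' + 1)).card : ℝ)
          ≤ (2 * (N : ℝ) + 1) ^ P * ((2 * (N : ℝ) + 1) ^ (j' + 1) * N) :=
            mul_le_mul_of_nonneg_left h1 (by positivity)
        _ ≤ (2 * (N : ℝ) + 1) ^ P * ((2 * (N : ℝ) + 1) ^ (j' + 1) * (2 * (N : ℝ) + 1)) := by
            have : (N : ℝ) ≤ 2 * (N : ℝ) + 1 := by linarith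
            gcongr
        _ = (2 * (N : ℝ) + 1) ^ (2 ^ (j' + 1)) := by
            rw [← hPj]; ring
        _ ≤ (3 * (N : ℝ)) ^ (2 ^ (j' + 1)) := pow_le_pow_left₀ (by positivity) hH _
        _ = 3 ^ (2 ^ (j' + 1)) * (N : ℝ) ^ (2 ^ (j' + 1)) := mul_pow _ _ _
    have h3 : lam * (2 * (N : ℝ) + 1) ^ P * ((I.card : ℝ) * ((Lam N (j' + 1)).card : ℝ)) =
        (lam * (I.card : ℝ)) * ((2 * (N : ℝ) + 1) ^ P * ((Lam N (j' + 1)).card : ℝ)) := by ring
    rw [h3]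
    have h4 := mul_le_mul hcard h2 (by positivity) (by positivity)
    refine h4.trans ?_
    have h5 : C1 * (N : ℝ) ^ (2 ^ (j' + 1) + 2) * (3 ^ (2 ^ (j' + 1)) * (N : ℝ) ^ (2 ^ (j' + 1))) =
        C1 * 3 ^ (2 ^ (j' + 1)) * (N : ℝ) ^ (2 ^ (j' + 1 + 1) + 2) := by
      have : 2 ^ (j' + 1 + 1) + 2 = (2 ^ (j' + 1) + 2) + 2 ^ (j' + 1) := by
        rw [pow_succ 2 (j' + 1)]; ring
      rw [this, pow_add (N : ℝ) (2 ^ (j' + 1) + 2)]; ring
    rw [h5]
    apply mul_le_mul_of_nonneg_right _ (by positivity)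
    apply mul_le_mul_of_nonneg_left _ hC1.le
    have : (0 : ℝ) ≤ 3 ^ P * ((((j' + 1 : ℕ) : ℝ) + k) * 3 ^ (j' + 1) + C2 * k) := by positivity
    push_cast at this ⊢
    linarith
  · have h1 := zero_count I m k N (j' + 1) D hjk hDb
    have h2 : ((((I ×ˢ Lam N (j' + 1)).filter (fun z => m z.1 + ph (fun n => n ^ k) z.2.1 z.2.2 = 0)).card : ℕ) : ℝ) ≤
        ((I.filter (fun i => m i = 0)).card : ℝ) * ((((j' + 1 : ℕ) : ℝ) + k) * (2 * (N : ℝ) + 1) ^ (j' + 1)) +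
        (I.card : ℝ) * ((2 * (D : ℝ)) ^ (j' + 1) * k) := by exact_mod_cast h1
    set Z : ℝ := ((I.filter (fun i => m i = 0)).card : ℝ) with hZ
    set X1 : ℝ := (N : ℝ) ^ ((2 : ℝ) ^ (j' + 1) + 2 - ((j' + 1 : ℕ) : ℝ) + η) with hX1
    have hX1' : 0 < X1 := by positivity
    calc lam * (2 * (N : ℝ) + 1) ^ P *
        ((((I ×ˢ Lam N (j' + 1)).filter (fun z => m z.1 + ph (fun n => n ^ k) z.2.1 z.2.2 = 0)).card : ℕ) : ℝ)
        ≤ lam * (2 * (N : ℝ) + 1) ^ P * (Z * ((((j' + 1 : ℕ) : ℝ) + k) * (2 * (N : ℝ) + 1) ^ (j' + 1)) +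
          (I.card : ℝ) * ((2 * (D : ℝ)) ^ (j' + 1) * k)) := mul_le_mul_of_nonneg_left h2 (by positivity)
      _ = (2 * (N : ℝ) + 1) ^ P * ((lam * Z) * ((((j' + 1 : ℕ) : ℝ) + k) * (2 * (N : ℝ) + 1) ^ (j' + 1)) +
          (lam * (I.card : ℝ)) * ((2 * (D : ℝ)) ^ (j' + 1) * k)) := by ring
      _ ≤ (3 ^ P * (N : ℝ) ^ P) * ((C1 * X1) * ((((j' + 1 : ℕ) : ℝ) + k) * (3 ^ (j' + 1) * (N : ℝ) ^ (j' + 1))) +
          (C1 * (N : ℝ) ^ (2 ^ (j' + 1) + 2)) * ((C2 * (N : ℝ) ^ η) * k)) := by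
          apply mul_le_mul hHP _ (by positivity) (by positivity)
          apply add_le_add
          · apply mul_le_mul hzero _ (by positivity) (by positivity)
            exact mul_le_mul_of_nonneg_left hHj (by positivity)
          · apply mul_le_mul hcard _ (by positivity) (by positivity)
            exact mul_le_mul_of_nonneg_right hDr (by positivity)
      _ = C1 * (3 ^ P * ((((j' + 1 : ℕ) : ℝ) + k) * 3 ^ (j' + 1) + C2 * k)) *
          (N : ℝ) ^ ((2 : ℝ) ^ (j' + 1 + 1) + 2 - ((j' + 1 + 1 : ℕ) : ℝ) + η) := by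
          have hPr : (P : ℝ) = (2 : ℝ) ^ (j' + 1) - ((j' + 1 : ℕ) : ℝ) - 1 := by
            have : ((P + (j' + 1) + 1 : ℕ) : ℝ) = ((2 ^ (j' + 1) : ℕ) : ℝ) := by rw [hPj]
            push_cast at this ⊢
            linarith
          have a1 : (N : ℝ) ^ P * X1 * (N : ℝ) ^ (j' + 1) =
              (N : ℝ) ^ ((2 : ℝ) ^ (j' + 1 + 1) + 2 - ((j' + 1 + 1 : ℕ) : ℝ) + η) := by
            rw [hX1, ← Real.rpow_natCast (N : ℝ) P, ← Real.rpow_natCast (N : ℝ) (j' + 1), ← Real.rpow_add hN0,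
              ← Real.rpow_add hN0, hPr]
            congr 1
            push_cast
            ring
          have a2 : (N : ℝ) ^ P * (N : ℝ) ^ (2 ^ (j' + 1) + 2) * (N : ℝ) ^ η =
              (N : ℝ) ^ ((2 : ℝ) ^ (j' + 1 + 1) + 2 - ((j' + 1 + 1 : ℕ) : ℝ) + η) := by
            rw [← Real.rpow_natCast (N : ℝ) P, ← Real.rpow_natCast (N : ℝ) (2 ^ (j' + 1) + 2), ← Real.rpow_add hN0,
              ← Real.rpow_add hN0, hPr]
            congr 1
            push_cast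
            ring
          rw [← a1]
          have a3 : (N : ℝ) ^ P * (N : ℝ) ^ (2 ^ (j' + 1) + 2) * (N : ℝ) ^ η =
            (N : ℝ) ^ P * X1 * (N : ℝ) ^ (j' + 1) := by rw [a1, a2]
          linear_combination (3 ^ P * C1 * C2 * k) * a3
      _ ≤ C1 * (3 ^ P * ((((j' + 1 : ℕ) : ℝ) + k) * 3 ^ (j' + 1) + C2 * k) + 3 ^ (2 ^ (j' + 1))) *
          (N : ℝ) ^ ((2 : ℝ) ^ (j' + 1 + 1) + 2 - ((j' + 1 + 1 : ℕ) : ℝ) + η) := by
          apply mul_le_mul_of_nonneg_right _ (by positivity)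
          apply mul_le_mul_of_nonneg_left _ hC1.le
          have : (0 : ℝ) ≤ 3 ^ (2 ^ (j' + 1)) := by positivity
          linarith

theorem good_all (k : ℕ) (hk : 2 ≤ k) (j : ℕ) (hj : 2 ≤ j) (hjk : j ≤ k) : Good k j := by
  induction j, hj using Nat.le_induction with
  | base => exact good_two k hk
  | succ j hj ih => exact good_step k j hj (by omega) (ih (by omega))

end Pool.Agent.TH181.MW
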