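import Pool.Agent.W928.MW.Fin
import Pool.Agent.H520R3.Weyl

/-! # incomplete sums and local constancy -/

set_option autoImplicit false

open Finset

namespace Pool.Agent.TH181.MW

open Pool.Agent.W928.MW (e sm e_add e_norm e_sub_re e_cont sm_le e_lip)

theorem e_eq (x : ℝ) : e x = Pool.Agent.H520R3.e x := by
  unfold Pool.Agent.W928.MW.e Pool.Agent.H520R3.e
  congr 1
  push_cast
  ring

theorem sum_Icc_range (f : ℕ → ℂ) (M : ℕ) : ∑ n ∈ Icc 1 M, f n = ∑ x ∈ range M, f (x + 1) := by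
  induction M with
  | zero => simp
  | succ M ih => rw [Finset.sum_Icc_succ_top (by omega), ih, Finset.sum_range_succ]

theorem e_nat_mul (x : ℝ) (n : ℕ) : e (x * n) = e x ^ n := by
  rw [e_eq, e_eq]; exact Pool.Agent.H520R3.e_mul_nat x n

theorem e_one_dist (x : ℝ) (h0 : 0 < x) (h1 : x < 1) : 4 * (x * (1 - x)) ≤ ‖e (-x) - 1‖ := by
  rw [e_eq]
  refine le_trans ?_ (Pool.Agent.H520R3.four_mul_le (-x))
  have h : x * (1 - x) ≤ |(-x) - round (-x)| := by
    set r : ℤ := round (-x) with hr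
    rcases le_or_gt 0 r with h2 | h2
    · have h3 : (0 : ℝ) ≤ (r : ℝ) := by exact_mod_cast h2
      have h4 : x ≤ |(-x) - (r : ℝ)| := by
        rw [abs_of_nonpos (by linarith)]; linarith
      nlinarith
    · have h3 : (r : ℝ) ≤ -1 := by
        have : r ≤ -1 := by omega
        exact_mod_cast this
      have h4 : 1 - x ≤ |(-x) - (r : ℝ)| := by
        rw [abs_of_nonneg (by linarith)]; linarith
      nlinarith
  linarith

theorem geom_le (x : ℝ) (h0 : 0 < x) (h1 : x < 1) (M : ℕ) :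
    ‖∑ m ∈ Icc 1 M, e (-x * m)‖ ≤ (1 / 2) * (1 / x + 1 / (1 - x)) := by
  have h2 := e_one_dist x h0 h1
  have h1x : 0 < 1 - x := by linarith
  have h3 : 0 < 4 * (x * (1 - x)) := by positivity
  have h4 : e (-x) ≠ 1 := by
    intro h
    rw [h, sub_self, norm_zero] at h2
    linarith
  have h5 : ∑ m ∈ Icc 1 M, e (-x * m) = e (-x) * ((e (-x) ^ M - 1) / (e (-x) - 1)) := by
    rw [sum_Icc_range, ← geom_sum_eq h4, Finset.mul_sum]
    apply Finset.sum_congr rfl
    intro i _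
    rw [e_nat_mul, pow_succ, mul_comm]
  rw [h5, norm_mul, e_norm, one_mul, norm_div]
  have h6 : ‖e (-x) ^ M - 1‖ ≤ 2 := by
    refine le_trans (norm_sub_le _ _) ?_
    rw [norm_pow, e_norm, one_pow, norm_one]
    norm_num
  calc ‖e (-x) ^ M - 1‖ / ‖e (-x) - 1‖ ≤ 2 / (4 * (x * (1 - x))) :=
        div_le_div₀ (by norm_num) h6 h3 h2
    _ = (1 / 2) * (1 / x + 1 / (1 - x)) := by
        field_simp
        ring

theorem orth (N : ℕ) (hN : 1 ≤ N) (n m : ℕ) (hn : n ∈ Icc 1 N) (hm : m ∈ Icc 1 N) :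
    ∑ b ∈ range N, e (((n : ℝ) - m) / N * b) = if m = n then (N : ℂ) else 0 := by
  have hN0 : (0 : ℝ) < N := by exact_mod_cast hN
  split_ifs with h
  · subst h
    have : ∀ b ∈ range N, e (((m : ℝ) - m) / N * b) = 1 := by
      intro b _
      rw [sub_self, zero_div, zero_mul]
      unfold Pool.Agent.W928.MW.e; simp
    rw [Finset.sum_congr rfl this]; simp
  · rw [Finset.mem_Icc] at hn hm
    set x : ℝ := ((n : ℝ) - m) / N with hx
    have h1 : e x ≠ 1 := by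
      intro h1
      have h2 := Pool.Agent.H520R3.four_mul_le x
      rw [← e_eq, h1, sub_self, norm_zero] at h2
      have h3 : |x - round x| = 0 := le_antisymm (by linarith) (abs_nonneg _)
      have h4 : x = (round x : ℝ) := by
        have := abs_eq_zero.mp h3; linarith
      have h5 : (n : ℝ) - m = (round x : ℝ) * N := by
        rw [← h4, hx]; field_simp
      have h6 : (n : ℤ) - m = round x * N := by exact_mod_cast h5
      rcases lt_trichotomy (round x) 0 with h7 | h7 | h7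
      · have h8 : round x * (N : ℤ) ≤ -1 * (N : ℤ) :=
          mul_le_mul_of_nonneg_right (by omega) (by positivity)
        omega
      · rw [h7] at h6; omega
      · have h8 : 1 * (N : ℤ) ≤ round x * (N : ℤ) :=
          mul_le_mul_of_nonneg_right (by omega) (by positivity)
        omega
    have h2 : ∑ b ∈ range N, e (x * b) = ∑ b ∈ range N, e x ^ b :=
      Finset.sum_congr rfl (fun b _ => e_nat_mul x b)
    rw [h2, geom_sum_eq h1, ← e_nat_mul]
    have h3 : x * (N : ℝ) = (((n : ℤ) - m : ℤ) : ℝ) := by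
      rw [hx]; push_cast; field_simp
    rw [h3, e_eq, Pool.Agent.H520R3.e_int, sub_self, zero_div]

theorem harm_sum (N : ℕ) (hN : 1 ≤ N) : ∑ b ∈ Ico 1 N, (1 / 2 : ℝ) * (1 / ((b : ℝ) / N) + 1 / (1 - (b : ℝ) / N)) ≤
    N * (1 + Real.log N) := by
  have hN0 : (0 : ℝ) < N := by exact_mod_cast hN
  obtain ⟨K, rfl⟩ : ∃ K, N = K + 1 := ⟨N - 1, by omega⟩
  rw [Finset.sum_Ico_eq_sum_range]
  have h0 : K + 1 - 1 = K := by omega
  rw [h0]
  have h1 : ∀ i ∈ range K, (1 / 2 : ℝ) * (1 / (((1 + i : ℕ) : ℝ) / ((K + 1 : ℕ) : ℝ)) +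
      1 / (1 - ((1 + i : ℕ) : ℝ) / ((K + 1 : ℕ) : ℝ))) =
      ((K + 1 : ℕ) : ℝ) / 2 * (1 / ((i : ℝ) + 1)) + ((K + 1 : ℕ) : ℝ) / 2 * (1 / (((K - 1 - i : ℕ) : ℝ) + 1)) := by
    intro i hi
    rw [Finset.mem_range] at hi
    have hc : ((K - 1 - i : ℕ) : ℝ) = (K : ℝ) - 1 - i := by
      rw [Nat.cast_sub (by omega), Nat.cast_sub (by omega)]; push_cast; ring
    rw [hc]
    have hi' : (i : ℝ) + 1 ≤ K := by exact_mod_cast hi
    have h2 : (K : ℝ) - 1 - i + 1 ≠ 0 := by linarith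
    have h3 : 1 - ((1 + i : ℕ) : ℝ) / ((K + 1 : ℕ) : ℝ) = ((K : ℝ) - 1 - i + 1) / ((K + 1 : ℕ) : ℝ) := by
      push_cast; field_simp; ring
    rw [h3]
    push_cast
    have h4 : (1 : ℝ) + i ≠ 0 := by positivity
    have h5 : (i : ℝ) + 1 ≠ 0 := by positivity
    have h6 : (K : ℝ) + 1 ≠ 0 := by positivity
    field_simp
    ring
  rw [Finset.sum_congr rfl h1, Finset.sum_add_distrib, ← Finset.mul_sum, ← Finset.mul_sum]
  rw [Finset.sum_range_reflect (fun i => 1 / ((i : ℝ) + 1)) K]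
  have h2 : ∑ i ∈ range K, 1 / ((i : ℝ) + 1) ≤ 1 + Real.log ((K + 1 : ℕ) : ℝ) := by
    have h3 := harmonic_le_one_add_log K
    unfold harmonic at h3
    push_cast at h3
    have h4 : ∑ i ∈ range K, 1 / ((i : ℝ) + 1) = ∑ i ∈ range K, ((i : ℝ) + 1)⁻¹ :=
      Finset.sum_congr rfl (fun i _ => one_div _)
    rw [h4]
    refine h3.trans ?_
    rcases Nat.eq_zero_or_pos K with h5 | h5
    · subst h5; simp
    · have : (0 : ℝ) < K := by exact_mod_cast h5
      have := Real.log_le_log this (show (K : ℝ) ≤ ((K + 1 : ℕ) : ℝ) by push_cast; linarith)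
      linarith
  have h3 := mul_le_mul_of_nonneg_left h2 hN0.le
  linarith

theorem max_le (N M : ℕ) (hN : 1 ≤ N) (hM : M ≤ N) (c : ℕ → ℂ) (K : ℝ)
    (h : ∀ η : ℝ, ‖∑ n ∈ Icc 1 N, c n * e (η * n)‖ ≤ K) (ξ : ℝ) :
    ‖∑ n ∈ Icc 1 M, c n * e (ξ * n)‖ ≤ (2 + Real.log N) * K := by
  have hN0 : (0 : ℝ) < N := by exact_mod_cast hN
  have hK0 : 0 ≤ K := (norm_nonneg _).trans (h 0)
  have h1 : (N : ℂ) * ∑ n ∈ Icc 1 M, c n * e (ξ * n) =
      ∑ b ∈ range N, (∑ m ∈ Icc 1 M, e (-((b : ℝ) / N) * m)) * (∑ n ∈ Icc 1 N, c n * e ((ξ + b / N) * n)) := by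
    have h2 : ∀ b ∈ range N, (∑ m ∈ Icc 1 M, e (-((b : ℝ) / N) * m)) *
        (∑ n ∈ Icc 1 N, c n * e ((ξ + b / N) * n)) =
        ∑ n ∈ Icc 1 N, ∑ m ∈ Icc 1 M, (c n * e (ξ * n)) * e (((n : ℝ) - m) / N * b) := by
      intro b _
      rw [Finset.sum_mul_sum, Finset.sum_comm]
      apply Finset.sum_congr rfl
      intro n _
      apply Finset.sum_congr rfl
      intro m _
      have : e (-((b : ℝ) / N) * m) * (c n * e ((ξ + b / N) * n)) =
          c n * (e (-((b : ℝ) / N) * m) * e ((ξ + b / N) * n)) := by ring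
      rw [this, ← e_add, mul_assoc, ← e_add]
      congr 2
      field_simp
      ring
    rw [Finset.sum_congr rfl h2, Finset.sum_comm]
    have h3 : ∀ n ∈ Icc 1 N, ∑ b ∈ range N, ∑ m ∈ Icc 1 M, (c n * e (ξ * n)) * e (((n : ℝ) - m) / N * b) =
        if n ∈ Icc 1 M then (c n * e (ξ * n)) * (N : ℂ) else 0 := by
      intro n hn
      rw [Finset.sum_comm]
      have h4 : ∀ m ∈ Icc 1 M, ∑ b ∈ range N, (c n * e (ξ * n)) * e (((n : ℝ) - m) / N * b) =
          if m = n then (c n * e (ξ * n)) * (N : ℂ) else 0 := by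
        intro m hm
        rw [← Finset.mul_sum, orth N hN n m hn]
        · split_ifs <;> simp
        · rw [Finset.mem_Icc] at hm ⊢; omega
      rw [Finset.sum_congr rfl h4, Finset.sum_ite_eq']
    rw [Finset.sum_congr rfl h3, ← Finset.sum_filter]
    have h5 : (Icc 1 N).filter (fun n => n ∈ Icc 1 M) = Icc 1 M := by
      ext n
      rw [Finset.mem_filter, Finset.mem_Icc, Finset.mem_Icc]
      omega
    rw [h5, ← Finset.sum_mul]
    ring
  have h2 : (N : ℝ) * ‖∑ n ∈ Icc 1 M, c n * e (ξ * n)‖ ≤ (N + N * (1 + Real.log N)) * K := by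
    have h3 : (N : ℝ) * ‖∑ n ∈ Icc 1 M, c n * e (ξ * n)‖ = ‖(N : ℂ) * ∑ n ∈ Icc 1 M, c n * e (ξ * n)‖ := by
      rw [norm_mul, Complex.norm_natCast]
    rw [h3, h1]
    refine (norm_sum_le _ _).trans ?_
    have h4 : ∀ b ∈ range N, ‖(∑ m ∈ Icc 1 M, e (-((b : ℝ) / N) * m)) *
        (∑ n ∈ Icc 1 N, c n * e ((ξ + b / N) * n))‖ ≤ ‖∑ m ∈ Icc 1 M, e (-((b : ℝ) / N) * m)‖ * K := by
      intro b _
      rw [norm_mul]
      exact mul_le_mul_of_nonneg_left (h _) (norm_nonneg _)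
    refine (Finset.sum_le_sum h4).trans ?_
    rw [← Finset.sum_mul]
    apply mul_le_mul_of_nonneg_right _ hK0
    rw [Finset.range_eq_Ico, Finset.sum_eq_sum_Ico_succ_bot (by omega)]
    apply add_le_add
    · refine (norm_sum_le _ _).trans ?_
      simp only [e_norm]
      rw [Finset.sum_const, Nat.card_Icc, Nat.add_sub_cancel, nsmul_eq_mul, mul_one]
      exact_mod_cast hM
    · refine le_trans ?_ (harm_sum N hN)
      apply Finset.sum_le_sum
      intro b hb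
      rw [Finset.mem_Ico] at hb
      have hb0 : (0 : ℝ) < b := by
        have : 0 < b := by omega
        exact_mod_cast this
      have hb1 : (b : ℝ) < N := by exact_mod_cast hb.2
      exact geom_le _ (by positivity) (by rw [div_lt_one hN0]; exact hb1) M
  have h3 : (N : ℝ) * ‖∑ n ∈ Icc 1 M, c n * e (ξ * n)‖ ≤ N * ((2 + Real.log N) * K) := by
    refine h2.trans (le_of_eq ?_); ring
  exact le_of_mul_le_mul_left h3 hN0

theorem sm_form (k N : ℕ) (t ξ : ℝ) : sm k N t ξ = ∑ n ∈ Icc 1 N, e (t * (n : ℝ) ^ k) * e (ξ * n) := by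
  unfold Pool.Agent.W928.MW.sm
  exact Finset.sum_congr rfl (fun n _ => e_add _ _)

/-- incomplete sums -/
theorem S_MAX_t : Pool.Agent.W928.MW.S_MAX := by
  intro k N M t K hN hM h ξ
  have hN' : (1 : ℝ) ≤ N := by exact_mod_cast hN
  have hK0 : 0 ≤ K := (norm_nonneg _).trans (h 0)
  have h1 := max_le N M hN hM (fun n => e (t * (n : ℝ) ^ k)) K (fun η => by
    have := h η
    rwa [sm_form] at this) ξ
  rw [← sm_form] at h1
  refine h1.trans ?_
  apply mul_le_mul_of_nonneg_right _ hK0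
  have := Real.log_nonneg hN'
  linarith

/-- passing from `t` to a point at distance `N^(-k)` -/
theorem shift_le (k N M : ℕ) (t t' ξ B : ℝ) (hN : 1 ≤ N) (hM : M ≤ N) (hB : 0 ≤ B)
    (htt : |t - t'| ≤ 1 / (N : ℝ) ^ k)
    (h : ∀ m : ℕ, m ≤ N → ‖sm k m t' ξ‖ ≤ B) : ‖sm k M t ξ‖ ≤ (1 + 2 * Real.pi * 2 ^ k) * B := by
  have hN' : (1 : ℝ) ≤ N := by exact_mod_cast hN
  have hN0 : (0 : ℝ) < N := by linarith
  have h1 : sm k M t ξ = ∑ x ∈ range M, e ((t - t') * ((x + 1 : ℕ) : ℝ) ^ k) *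
      e (t' * ((x + 1 : ℕ) : ℝ) ^ k + ξ * ((x + 1 : ℕ) : ℝ)) := by
    unfold Pool.Agent.W928.MW.sm
    rw [sum_Icc_range]
    apply Finset.sum_congr rfl
    intro x _
    rw [← e_add]
    congr 1
    ring
  have h2 := Pool.Agent.H520R3.abel_bound (fun x : ℕ => e ((t - t') * ((x + 1 : ℕ) : ℝ) ^ k))
    (fun x : ℕ => e (t' * ((x + 1 : ℕ) : ℝ) ^ k + ξ * ((x + 1 : ℕ) : ℝ))) B (2 * Real.pi * 2 ^ k) hB M
    (by
      intro X hX
      have h3 := h X (hX.trans hM)
      unfold Pool.Agent.W928.MW.sm at h3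
      rwa [sum_Icc_range] at h3)
    (fun x => (e_norm _).le)
    (by
      have h4 : ∀ x ∈ range M, ‖e ((t - t') * ((x + 1 + 1 : ℕ) : ℝ) ^ k) - e ((t - t') * ((x + 1 : ℕ) : ℝ) ^ k)‖ ≤
          2 * Real.pi * |t - t'| * (((x + 1 + 1 : ℕ) : ℝ) ^ k - ((x + 1 : ℕ) : ℝ) ^ k) := by
        intro x _
        refine (e_lip _ _).trans (le_of_eq ?_)
        rw [← mul_sub, abs_mul, abs_of_nonneg (a := ((x + 1 + 1 : ℕ) : ℝ) ^ k - ((x + 1 : ℕ) : ℝ) ^ k)]
        · ring
        · have : ((x + 1 : ℕ) : ℝ) ^ k ≤ ((x + 1 + 1 : ℕ) : ℝ) ^ k :=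
            pow_le_pow_left₀ (by positivity) (by push_cast; linarith) k
          linarith
      refine (Finset.sum_le_sum h4).trans ?_
      rw [← Finset.mul_sum, Finset.sum_range_sub (fun x : ℕ => ((x + 1 : ℕ) : ℝ) ^ k)]
      have h5 : ((M + 1 : ℕ) : ℝ) ^ k - ((0 + 1 : ℕ) : ℝ) ^ k ≤ (2 * (N : ℝ)) ^ k := by
        have h6 : ((M + 1 : ℕ) : ℝ) ^ k ≤ (2 * (N : ℝ)) ^ k := by
          apply pow_le_pow_left₀ (by positivity)
          have : (M : ℝ) ≤ N := by exact_mod_cast hM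
          push_cast
          linarith
        have h7 : (0 : ℝ) ≤ ((0 + 1 : ℕ) : ℝ) ^ k := by positivity
        linarith
      calc 2 * Real.pi * |t - t'| * (((M + 1 : ℕ) : ℝ) ^ k - ((0 + 1 : ℕ) : ℝ) ^ k)
          ≤ 2 * Real.pi * |t - t'| * (2 * (N : ℝ)) ^ k :=
            mul_le_mul_of_nonneg_left h5 (by positivity)
        _ ≤ 2 * Real.pi * (1 / (N : ℝ) ^ k) * (2 * (N : ℝ)) ^ k := by
            apply mul_le_mul_of_nonneg_right _ (by positivity)
            exact mul_le_mul_of_nonneg_left htt (by positivity)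
        _ = 2 * Real.pi * 2 ^ k := by
            rw [mul_pow]
            field_simp)
  rw [h1]
  refine h2.trans (le_of_eq ?_)
  ring

end Pool.Agent.TH181.MW
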