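import Pool.Agent.TH181.MW.HuaC
import Pool.Agent.TH181.MW.Max
import Pool.Agent.TH181.MW.Cov

/-! # Hausdorff dimension of the exceptional set, from any moment -/

set_option autoImplicit false

open Finset MeasureTheory

namespace Pool.Agent.TH181.MW

open Pool.Agent.W928.MW (e sm e_add e_norm e_sub_re e_cont sm_le ev_pow ev_log)

/-- the inequality of `H_k(η)` for one `t`, one `ε` and one constant -/
def HoldsE (k : ℕ) (η ε C t : ℝ) : Prop :=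
  ∀ N : ℕ, 2 ≤ N → ∀ ξ : ℝ, ∀ a q : ℕ, 1 ≤ a → a < q → q ≤ N → Nat.Coprime a q →
    |t - (a : ℝ) / (q : ℝ)| ≤ 1 / (q : ℝ) ^ 2 →
    ‖sm k N t ξ‖ ≤ C * (N : ℝ) ^ (1 + ε) *
      (1 / (q : ℝ) + 1 / (N : ℝ) + (q : ℝ) / (N : ℝ) ^ k) ^ η

/-- bad parameters at scale `2^i` and level `θ` -/
def BdE (k : ℕ) (θ : ℝ) (j : ℤ) (i : ℕ) : Set ℝ :=
  {t : ℝ | t ∈ Set.Icc (j : ℝ) ((j : ℝ) + 1) ∧ ∃ M : ℕ, M ≤ 2 ^ i ∧ 2 ^ i ≤ 2 * M ∧ ∃ ξ : ℝ,
    (M : ℝ) ^ θ < ‖sm k M t ξ‖}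

/-- the moment hypothesis: measure of the set where the sum is large for some linear coefficient -/
def MomG (p k : ℕ) (κ : ℝ) : Prop := ∀ η : ℝ, 0 < η → ∃ C : ℝ, 0 < C ∧ ∀ N : ℕ, 1 ≤ N →
  ∀ (u v : ℤ) (lam : ℝ), u ≤ v → 0 < lam →
    volume {t : ℝ | t ∈ Set.Icc (u : ℝ) (v : ℝ) ∧ ∃ ξ : ℝ, lam ≤ ‖sm k N t ξ‖} ≤
      ENNReal.ofReal (((v : ℝ) - u) * (C * (N : ℝ) ^ (κ + η)) / lam ^ p)

theorem good_mom (k j : ℕ) (hG : Good k j) : MomG (2 ^ j + 2) k ((2 : ℝ) ^ j + 2 - j) := by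
  intro η hη
  obtain ⟨C, hC, hG1⟩ := hG η hη
  refine ⟨C, hC, fun N hN u v lam0 huv hl => ?_⟩
  obtain ⟨ι, I, m, lam, hlam, him, hpt, hcard, hzero⟩ := hG1 N hN
  have huv' : (u : ℝ) ≤ (v : ℝ) := by exact_mod_cast huv
  set W : ℝ → ℝ := fun t => lam * (∑ i ∈ I, e (t * (m i : ℝ))).re with hW
  have hWc : Continuous W := by
    rw [hW]
    refine continuous_const.mul (Complex.continuous_re.comp (continuous_finsetSum _ (fun i _ => ?_)))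
    exact e_cont.comp (by fun_prop)
  have hW0 : ∀ t, 0 ≤ W t := fun t => (by positivity : (0 : ℝ) ≤ ‖sm k N t 0‖ ^ (2 ^ j + 2)).trans (hpt t 0)
  have hint : ∫ t in (u : ℝ)..(v : ℝ), W t = ((v : ℝ) - u) * (lam * ((I.filter (fun i => m i = 0)).card : ℝ)) := by
    rw [hW, intervalIntegral.integral_const_mul]
    have h1 : ∀ t : ℝ, (∑ i ∈ I, e (t * (m i : ℝ))).re = ∑ i ∈ I, Real.cos (2 * Real.pi * (t * (m i : ℝ))) := by
      intro t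
      rw [Complex.re_sum]
      apply Finset.sum_congr rfl
      intro i _
      have := e_sub_re (t * (m i : ℝ)) 0
      rw [e_zero, map_one, mul_one, sub_zero] at this
      exact this
    simp_rw [h1]
    rw [intervalIntegral.integral_finsetSum]
    · simp_rw [int_cos]
      rw [Finset.sum_ite, Finset.sum_const_zero, add_zero, Finset.sum_const, nsmul_eq_mul]
      ring
    · intro i _
      apply Continuous.intervalIntegrable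
      fun_prop
  set ρ : ℝ := lam0 ^ (2 ^ j + 2) with hρ
  have hρ0 : 0 < ρ := by positivity
  have hsub : {t : ℝ | t ∈ Set.Icc (u : ℝ) (v : ℝ) ∧ ∃ ξ : ℝ, lam0 ≤ ‖sm k N t ξ‖} ⊆
      {t : ℝ | ρ ≤ W t} ∩ Set.Icc (u : ℝ) (v : ℝ) := by
    rintro t ⟨ht, ξ, hξ⟩
    exact ⟨(pow_le_pow_left₀ hl.le hξ (2 ^ j + 2)).trans (hpt t ξ), ht⟩
  have hmeas : MeasurableSet {t : ℝ | ρ ≤ W t} := (isClosed_le continuous_const hWc).measurableSet
  have hint' : Integrable W (volume.restrict (Set.Icc (u : ℝ) (v : ℝ))) := (hWc.continuousOn).integrableOn_Icc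
  have h3 := mul_meas_ge_le_integral_of_nonneg (μ := volume.restrict (Set.Icc (u : ℝ) (v : ℝ))) (f := W)
    (Filter.Eventually.of_forall hW0) hint' ρ
  have h4 : ∫ x, W x ∂(volume.restrict (Set.Icc (u : ℝ) (v : ℝ))) = ∫ t in (u : ℝ)..(v : ℝ), W t := by
    rw [intervalIntegral.integral_of_le huv', integral_Icc_eq_integral_Ioc]
  rw [h4, hint] at h3
  have h5 : (volume.restrict (Set.Icc (u : ℝ) (v : ℝ))).real {t : ℝ | ρ ≤ W t} =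
      (volume ({t : ℝ | ρ ≤ W t} ∩ Set.Icc (u : ℝ) (v : ℝ))).toReal := by
    unfold Measure.real
    rw [Measure.restrict_apply hmeas]
  rw [h5] at h3
  have hfin : volume ({t : ℝ | ρ ≤ W t} ∩ Set.Icc (u : ℝ) (v : ℝ)) ≠ ⊤ := by
    refine ne_top_of_le_ne_top ?_ (measure_mono Set.inter_subset_right)
    rw [Real.volume_Icc]
    exact ENNReal.ofReal_ne_top
  refine (measure_mono hsub).trans ?_
  rw [← ENNReal.ofReal_toReal hfin]
  apply ENNReal.ofReal_le_ofReal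
  rw [le_div_iff₀ hρ0, mul_comm]
  refine h3.trans ?_
  apply mul_le_mul_of_nonneg_left hzero
  linarith

theorem cover (p k : ℕ) (κ : ℝ) (hk : 2 ≤ k) (hJ : MomG p k κ) (θ ε' : ℝ) (hθ0 : 0 < θ)
    (hε' : 0 < ε') (j : ℤ) :
    ∃ i0 : ℕ, ∀ i : ℕ, i0 ≤ i → ∃ S : Finset ℝ,
      (S.card : ℝ) ≤ ((2 : ℝ) ^ i) ^ ((k : ℝ) + κ - p * θ + (p + 2) * ε') ∧
      BdE k θ j i ⊆ ⋃ x ∈ S, Set.Icc x (x + ((2 : ℝ) ^ i) ^ (-(k : ℝ))) := by
  obtain ⟨C, hC0, hCJ⟩ := hJ ε' hε'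
  have hk2 : (2 : ℝ) ≤ (k : ℝ) := by exact_mod_cast hk
  have hk0 : (0 : ℝ) < (k : ℝ) := by linarith
  have hc1 : 0 < (1 + 2 * Real.pi * 2 ^ k : ℝ) := by positivity
  obtain ⟨i1, h1⟩ := ev_log ε' hε' ((2 : ℝ) ^ θ * (1 + 2 * Real.pi * 2 ^ k))
  obtain ⟨i3, h3⟩ := ev_pow ε' hε' (3 * C)
  refine ⟨i1 + i3, fun i hi => ?_⟩
  have g1 := h1 i (by omega)
  have g3 := h3 i (by omega)
  set X : ℝ := (2 : ℝ) ^ i with hX
  have hX1 : (1 : ℝ) ≤ X := one_le_pow₀ (by norm_num)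
  have hX0 : (0 : ℝ) < X := by positivity
  have hNX : (((2 ^ i : ℕ) : ℕ) : ℝ) = X := by push_cast; rfl
  set μ : ℝ := X ^ (θ - ε') with hμ
  have hμ0 : 0 < μ := by positivity
  set δ : ℝ := X ^ (-(k : ℝ)) with hδ
  have hδ0 : 0 < δ := by positivity
  have hδ' : δ = 1 / (((2 ^ i : ℕ) : ℕ) : ℝ) ^ k := by
    rw [hNX, hδ, Real.rpow_neg hX0.le, Real.rpow_natCast, one_div]
  have hδ1 : δ ≤ 1 := by
    rw [hδ]
    exact Real.rpow_le_one_of_one_le_of_nonpos hX1 (by linarith)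
  set F : Set ℝ := {t : ℝ | t ∈ Set.Icc (((j - 1 : ℤ)) : ℝ) (((j + 2 : ℤ)) : ℝ) ∧
    ∃ η : ℝ, μ ≤ ‖sm k (2 ^ i) t η‖} with hF
  have key2 : ∀ t ∈ BdE k θ j i, ∀ t' : ℝ, |t' - t| ≤ δ → t' ∈ F := by
    rintro t ⟨ht1, M, hM1, hM2, ξ, hξ⟩ t' htt
    have htt' := abs_le.mp htt
    refine ⟨⟨by push_cast; linarith [ht1.1, htt'.1], by push_cast; linarith [ht1.2, htt'.2]⟩, ?_⟩
    by_contra hcon
    push Not at hcon
    have h4 : ∀ m : ℕ, m ≤ 2 ^ i → ‖sm k m t' ξ‖ ≤ (4 + 4 * Real.log X) * μ := by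
      intro m hm
      have := S_MAX_t k (2 ^ i) m t' μ Nat.one_le_two_pow hm (fun η => (hcon η).le) ξ
      rwa [hNX] at this
    have hB0 : 0 ≤ (4 + 4 * Real.log X) * μ := by
      have := Real.log_nonneg hX1
      positivity
    have h5 := shift_le k (2 ^ i) M t t' ξ _ Nat.one_le_two_pow hM1 hB0
      (by rw [← hδ', abs_sub_comm]; exact htt) h4
    have h6 : (X / 2) ^ θ ≤ (M : ℝ) ^ θ := by
      apply Real.rpow_le_rpow (by positivity) _ hθ0.le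
      have : ((2 ^ i : ℕ) : ℝ) ≤ ((2 * M : ℕ) : ℝ) := by exact_mod_cast hM2
      rw [hNX] at this
      push_cast at this
      linarith
    have h7 : (X / 2) ^ θ = X ^ θ / (2 : ℝ) ^ θ := Real.div_rpow hX0.le (by norm_num) θ
    have h8 : (1 + 2 * Real.pi * 2 ^ k) * ((4 + 4 * Real.log X) * μ) ≤ X ^ θ / (2 : ℝ) ^ θ := by
      rw [le_div_iff₀ (by positivity)]
      have h9 : X ^ θ = X ^ ε' * μ := by
        rw [hμ, ← Real.rpow_add hX0]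
        congr 1
        ring
      rw [h9]
      calc (1 + 2 * Real.pi * 2 ^ k) * ((4 + 4 * Real.log X) * μ) * (2 : ℝ) ^ θ
          = ((2 : ℝ) ^ θ * (1 + 2 * Real.pi * 2 ^ k) * (4 + 4 * Real.log X)) * μ := by ring
        _ ≤ X ^ ε' * μ := mul_le_mul_of_nonneg_right g1 hμ0.le
    have h10 : (M : ℝ) ^ θ < (M : ℝ) ^ θ := by
      calc (M : ℝ) ^ θ < ‖sm k M t ξ‖ := hξ
        _ ≤ (1 + 2 * Real.pi * 2 ^ k) * ((4 + 4 * Real.log X) * μ) := h5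
        _ ≤ X ^ θ / (2 : ℝ) ^ θ := h8
        _ = (X / 2) ^ θ := h7.symm
        _ ≤ (M : ℝ) ^ θ := h6
    exact lt_irrefl _ h10
  -- measure of F
  have h5 := hCJ (2 ^ i) Nat.one_le_two_pow (j - 1) (j + 2) μ (by omega) hμ0
  rw [hNX] at h5
  set V : ℝ := 3 * C * (X ^ (κ + ε') / μ ^ p) with hV
  have h6 : volume F ≤ ENNReal.ofReal V := by
    refine h5.trans (ENNReal.ofReal_le_ofReal (le_of_eq ?_))
    rw [hV]
    have a0 : (((j + 2 : ℤ)) : ℝ) - (((j - 1 : ℤ)) : ℝ) = 3 := by push_cast; ring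
    rw [a0]
    ring
  obtain ⟨S, hS1, hS2⟩ := S_COV_t (BdE k θ j i) F δ V (j : ℝ) ((j : ℝ) + 1) hδ0 (by positivity)
    (fun t ht => ht.1) key2 h6
  refine ⟨S, hS1.trans ?_, hS2⟩
  have h9 : μ ^ p = X ^ (p * (θ - ε')) := by
    rw [hμ, ← Real.rpow_natCast, ← Real.rpow_mul hX0.le]
    congr 1
    ring
  rw [hV, h9, hδ, ← Real.rpow_sub hX0, mul_div_assoc, ← Real.rpow_sub hX0]
  calc 3 * C * X ^ (κ + ε' - p * (θ - ε') - -(k : ℝ))
      ≤ X ^ ε' * X ^ (κ + ε' - p * (θ - ε') - -(k : ℝ)) :=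
        mul_le_mul_of_nonneg_right g3 (by positivity)
    _ = X ^ ((k : ℝ) + κ - p * θ + (p + 2) * ε') := by
        rw [← Real.rpow_add hX0]
        congr 1
        ring

theorem main_ge (k N q : ℕ) (η ε : ℝ) (hη : 0 ≤ η) (hN : 1 ≤ N) :
    (N : ℝ) ^ (1 - η + ε) ≤ (N : ℝ) ^ (1 + ε) *
      (1 / (q : ℝ) + 1 / (N : ℝ) + (q : ℝ) / (N : ℝ) ^ k) ^ η := by
  have hN' : (1 : ℝ) ≤ (N : ℝ) := by exact_mod_cast hN
  have h1 : (N : ℝ) ^ (1 - η + ε) = (N : ℝ) ^ (1 + ε) * (1 / (N : ℝ)) ^ η := by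
    rw [Real.div_rpow (by norm_num) (by positivity), Real.one_rpow, mul_one_div, ← Real.rpow_sub (by positivity)]
    congr 1
    ring
  rw [h1]
  apply mul_le_mul_of_nonneg_left _ (by positivity)
  apply Real.rpow_le_rpow (by positivity) _ hη
  have h2 : 0 ≤ 1 / (q : ℝ) + (q : ℝ) / (N : ℝ) ^ k := by positivity
  linarith

theorem bad_sub (k : ℕ) (η ε : ℝ) (hη : 0 ≤ η) (hθ : 0 ≤ 1 - η + ε) (t : ℝ)
    (ht : ¬ ∃ C : ℝ, HoldsE k η ε C t) : ∀ i1 : ℕ, ∃ i : ℕ, i1 ≤ i ∧ t ∈ BdE k (1 - η + ε) ⌊t⌋ i := by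
  intro i1
  by_contra hcon
  push Not at hcon
  apply ht
  refine ⟨(2 : ℝ) ^ i1 + 1, ?_⟩
  intro N hN2' ξ a q _ _ _ _ _
  have hN : 1 ≤ N := by omega
  have hN' : (1 : ℝ) ≤ (N : ℝ) := by exact_mod_cast hN
  set R : ℝ := (N : ℝ) ^ (1 + ε) *
      (1 / (q : ℝ) + 1 / (N : ℝ) + (q : ℝ) / (N : ℝ) ^ k) ^ η with hR
  have h1 : (N : ℝ) ^ (1 - η + ε) ≤ R := main_ge k N q η ε hη hN
  have h2 : 1 ≤ (N : ℝ) ^ (1 - η + ε) := Real.one_le_rpow hN' hθ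
  have h3 : ((2 : ℝ) ^ i1 + 1) * (N : ℝ) ^ (1 + ε) *
      (1 / (q : ℝ) + 1 / (N : ℝ) + (q : ℝ) / (N : ℝ) ^ k) ^ η = ((2 : ℝ) ^ i1 + 1) * R := by
    rw [hR]; ring
  rw [h3]
  have hp : (0 : ℝ) < (2 : ℝ) ^ i1 := by positivity
  rcases le_total N (2 ^ i1) with hN2 | hN2
  · have h4 : (N : ℝ) ≤ (2 : ℝ) ^ i1 := by exact_mod_cast hN2
    refine (sm_le k N t ξ).trans ?_
    nlinarith
  · -- the scale of `N`
    obtain ⟨i, hi1, hi2⟩ : ∃ i : ℕ, N ≤ 2 ^ i ∧ 2 ^ i ≤ 2 * N := by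
      refine ⟨Nat.log 2 N + 1, (Nat.lt_pow_succ_log_self (by norm_num) N).le, ?_⟩
      have := Nat.pow_log_le_self 2 (show N ≠ 0 by omega)
      rw [pow_succ]
      omega
    have hii : i1 ≤ i := by
      have : 2 ^ i1 ≤ 2 ^ i := hN2.trans hi1
      exact (Nat.pow_le_pow_iff_right (by norm_num)).mp this
    have h5 := hcon i hii
    have h6 : ‖sm k N t ξ‖ ≤ (N : ℝ) ^ (1 - η + ε) := by
      by_contra h7
      push Not at h7
      apply h5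
      exact ⟨⟨Int.floor_le t, (Int.lt_floor_add_one t).le⟩, N, hi1, hi2, ξ, h7⟩
    nlinarith

theorem dim_gen (p k : ℕ) (κ : ℝ) (hk : 2 ≤ k) (hJ : MomG p k κ) (η ε : ℝ) (hη : 0 ≤ η) (hθ : 0 < 1 - η + ε) :
    dimH {t : ℝ | ¬ ∃ C : ℝ, HoldsE k η ε C t} ≤
      ENNReal.ofReal (((k : ℝ) + κ - p * (1 - η + ε)) / k) := by
  have hk2 : (2 : ℝ) ≤ (k : ℝ) := by exact_mod_cast hk
  have hk0 : (0 : ℝ) < (k : ℝ) := by linarith
  set A : ℝ := (k : ℝ) + κ - p * (1 - η + ε) with hA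
  have hsub : {t : ℝ | ¬ ∃ C : ℝ, HoldsE k η ε C t} ⊆
      ⋃ j : ℤ, {t : ℝ | ∀ i1 : ℕ, ∃ i : ℕ, i1 ≤ i ∧ t ∈ BdE k (1 - η + ε) j i} := by
    intro t ht
    rw [Set.mem_iUnion]
    exact ⟨⌊t⌋, bad_sub k η ε hη hθ.le t ht⟩
  refine (dimH_mono hsub).trans ?_
  rw [dimH_iUnion]
  apply iSup_le
  intro j
  apply ENNReal.le_of_forall_pos_le_add
  intro ρ hρ _
  have hρ' : (0 : ℝ) < (ρ : ℝ) := by exact_mod_cast hρ
  set D : ℝ := max (A / k) 0 + ρ with hD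
  have hD0 : 0 < D := by
    have := le_max_right (A / k) 0
    rw [hD]; linarith
  set ε' : ℝ := ρ * k / (2 * (p + 2)) with hε'def
  have hε' : 0 < ε' := by positivity
  have h1 := S_DIMG_t (A + (p + 2) * ε') k D (BdE k (1 - η + ε) j) hk0 hD0
    (by
      have g1 : ((p : ℝ) + 2) * ε' = ρ * k / 2 := by
        rw [hε'def]; field_simp
      have g2 : A / k ≤ max (A / k) 0 := le_max_left _ _
      have g3 : A ≤ (k : ℝ) * max (A / k) 0 := by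
        have := mul_le_mul_of_nonneg_left g2 hk0.le
        rwa [mul_div_cancel₀ _ hk0.ne'] at this
      rw [g1, hD]
      have : 0 < (ρ : ℝ) * k := by positivity
      nlinarith)
    (cover p k κ hk hJ (1 - η + ε) ε' hθ hε' j)
  refine h1.trans (le_of_eq ?_)
  rw [hD, ENNReal.ofReal_add (le_max_right _ _) hρ'.le, ENNReal.ofReal_max, ENNReal.ofReal_zero, max_eq_left zero_le,
    ENNReal.ofReal_coe_nnreal]

/-- the exceptional set for `H_k(η)` -/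
theorem dim_all (k j : ℕ) (hj : 2 ≤ j) (hjk : j ≤ k) (η ε : ℝ) (hη : 0 ≤ η) (hη1 : η ≤ 1) (hε : 0 < ε) :
    dimH {t : ℝ | ¬ ∃ C : ℝ, HoldsE k η ε C t} ≤
      ENNReal.ofReal (1 - ((j : ℝ) - (2 ^ j + 2) * (η - ε)) / k) := by
  have hk0 : (0 : ℝ) < (k : ℝ) := by
    have : 0 < k := by omega
    exact_mod_cast this
  refine (dim_gen (2 ^ j + 2) k _ (by omega) (good_mom k j (good_all k (by omega) j hj hjk)) η ε hη (by linarith)).trans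
    (le_of_eq ?_)
  congr 1
  push_cast
  field_simp
  ring

end Pool.Agent.TH181.MW
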