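import Pool.Agent.W928.MW.Fin

/-! # moments of the supremum over the linear coefficient -/

set_option autoImplicit false

open Finset MeasureTheory

namespace Pool.Agent.TH181.MW

open Pool.Agent.W928.MW (e sm e_add e_norm e_sub_re e_cont sm_le)

/-- `s`-tuples from `[1,N]` -/
def tup (s N : ℕ) : Finset (Fin s → ℕ) := Fintype.piFinset (fun _ : Fin s => Icc 1 N)

/-- tuples with sum `m` -/
def prs (s N m : ℕ) : Finset (Fin s → ℕ) := (tup s N).filter (fun z => ∑ i, z i = m)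

noncomputable def p (s k N m : ℕ) (t : ℝ) : ℂ :=
  ∑ z ∈ prs s N m, e (t * ((∑ i, z i ^ k : ℕ) : ℝ))

noncomputable def Q (s k N : ℕ) (t : ℝ) : ℝ := ∑ m ∈ range (s * N + 1), ‖p s k N m t‖ ^ 2

/-- number of solutions of the system of degrees `1, k` -/
def J (s k N : ℕ) : ℕ := (((tup s N) ×ˢ (tup s N)).filter
  (fun z => ∑ i, z.1 i = ∑ i, z.2 i ∧ ∑ i, z.1 i ^ k = ∑ i, z.2 i ^ k)).card

theorem e_zero : e 0 = 1 := by
  unfold Pool.Agent.W928.MW.e; simp

theorem e_sum {ι : Type*} (s : Finset ι) (f : ι → ℝ) : e (∑ i ∈ s, f i) = ∏ i ∈ s, e (f i) := by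
  classical
  induction s using Finset.induction_on with
  | empty => simp [e_zero]
  | insert a s ha ih => rw [Finset.sum_insert ha, Finset.prod_insert ha, e_add, ih]

theorem tup_sum_le (s N : ℕ) (z : Fin s → ℕ) (hz : z ∈ tup s N) : ∑ i, z i ≤ s * N := by
  unfold tup at hz
  rw [Fintype.mem_piFinset] at hz
  calc ∑ i, z i ≤ ∑ _i : Fin s, N := Finset.sum_le_sum (fun i _ => (Finset.mem_Icc.mp (hz i)).2)
    _ = s * N := by simp

theorem sm_pow (s k N : ℕ) (t ξ : ℝ) :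
    sm k N t ξ ^ s = ∑ m ∈ range (s * N + 1), e (ξ * m) * p s k N m t := by
  have h1 : sm k N t ξ ^ s = ∑ z ∈ tup s N, e (ξ * ((∑ i, z i : ℕ) : ℝ)) * e (t * ((∑ i, z i ^ k : ℕ) : ℝ)) := by
    unfold Pool.Agent.W928.MW.sm tup
    rw [Finset.sum_pow']
    apply Finset.sum_congr rfl
    intro z _
    rw [← e_sum, ← e_add]
    congr 1
    push_cast
    rw [Finset.mul_sum, Finset.mul_sum, ← Finset.sum_add_distrib]
    apply Finset.sum_congr rfl
    intro i _
    ring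
  rw [h1, ← Finset.sum_fiberwise_of_maps_to (s := tup s N) (t := range (s * N + 1))
    (g := fun z : Fin s → ℕ => ∑ i, z i)]
  · apply Finset.sum_congr rfl
    intro m _
    unfold p prs
    rw [Finset.mul_sum]
    apply Finset.sum_congr rfl
    intro z hz
    rw [Finset.mem_filter] at hz
    rw [hz.2]
  · intro z hz
    rw [Finset.mem_range]
    have := tup_sum_le s N z hz
    omega

theorem sup (s k N : ℕ) (t ξ : ℝ) : ‖sm k N t ξ‖ ^ (2 * s) ≤ ((s : ℝ) * (N : ℝ) + 1) * Q s k N t := by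
  have h1 : ‖sm k N t ξ‖ ^ (2 * s) = ‖sm k N t ξ ^ s‖ ^ 2 := by
    rw [norm_pow, ← pow_mul, mul_comm]
  rw [h1, sm_pow]
  have h2 : ‖∑ m ∈ range (s * N + 1), e (ξ * m) * p s k N m t‖ ≤ ∑ m ∈ range (s * N + 1), ‖p s k N m t‖ := by
    refine (norm_sum_le _ _).trans (le_of_eq ?_)
    apply Finset.sum_congr rfl
    intro m _
    rw [norm_mul, e_norm, one_mul]
  have h3 := sq_sum_le_card_mul_sum_sq (s := range (s * N + 1)) (f := fun m => ‖p s k N m t‖)
  rw [Finset.card_range] at h3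
  have h4 : (((s * N + 1 : ℕ) : ℝ)) = (s : ℝ) * (N : ℝ) + 1 := by push_cast; ring
  rw [h4] at h3
  refine le_trans ?_ h3
  exact pow_le_pow_left₀ (norm_nonneg _) h2 2

theorem p_sq (s k N m : ℕ) (t : ℝ) : ‖p s k N m t‖ ^ 2 = ∑ z ∈ prs s N m, ∑ w ∈ prs s N m,
    Real.cos (2 * Real.pi * (t * (((∑ i, z i ^ k : ℕ) : ℝ) - ((∑ i, w i ^ k : ℕ) : ℝ)))) := by
  have h1 : ((‖p s k N m t‖ ^ 2 : ℝ) : ℂ) = p s k N m t * (starRingEnd ℂ) (p s k N m t) := by
    rw [Complex.mul_conj, Complex.normSq_eq_norm_sq]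
  have h2 : ‖p s k N m t‖ ^ 2 = (p s k N m t * (starRingEnd ℂ) (p s k N m t)).re := by
    rw [← h1, Complex.ofReal_re]
  rw [h2]
  unfold p
  rw [map_sum, Finset.sum_mul_sum, Complex.re_sum]
  apply Finset.sum_congr rfl
  intro z _
  rw [Complex.re_sum]
  apply Finset.sum_congr rfl
  intro w _
  rw [e_sub_re]
  congr 1
  ring

theorem p_cont (s k N m : ℕ) : Continuous (p s k N m) := by
  unfold p
  refine continuous_finsetSum _ (fun z _ => ?_)
  exact e_cont.comp (by fun_prop)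

theorem Q_cont (s k N : ℕ) : Continuous (Q s k N) := by
  unfold Q
  refine continuous_finsetSum _ (fun m _ => ?_)
  exact ((p_cont s k N m).norm).pow 2

theorem Q_nonneg (s k N : ℕ) (t : ℝ) : 0 ≤ Q s k N t := by
  unfold Q
  positivity

theorem int_cos (u v : ℤ) (n : ℤ) : ∫ t in (u : ℝ)..(v : ℝ), Real.cos (2 * Real.pi * (t * (n : ℝ))) =
    if n = 0 then (v : ℝ) - u else 0 := by
  split_ifs with h
  · subst h; simp
  · have hn : (n : ℝ) ≠ 0 := by exact_mod_cast h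
    have hc : 2 * Real.pi * (n : ℝ) ≠ 0 := by positivity
    have h1 : ∀ t : ℝ, Real.cos (2 * Real.pi * (t * (n : ℝ))) = Real.cos ((2 * Real.pi * (n : ℝ)) * t) := by
      intro t; congr 1; ring
    simp_rw [h1]
    rw [intervalIntegral.integral_comp_mul_left (fun x => Real.cos x) hc, integral_cos]
    have h2 : ∀ w : ℤ, Real.sin (2 * Real.pi * (n : ℝ) * (w : ℝ)) = 0 := by
      intro w
      have : 2 * Real.pi * (n : ℝ) * (w : ℝ) = ((2 * n * w : ℤ) : ℝ) * Real.pi := by push_cast; ring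
      rw [this]
      exact Real.sin_int_mul_pi _
    rw [h2, h2]
    simp

theorem int_Q (s k N : ℕ) (u v : ℤ) : ∫ t in (u : ℝ)..(v : ℝ), Q s k N t = ((v : ℝ) - u) * (J s k N : ℝ) := by
  unfold Q
  rw [intervalIntegral.integral_finsetSum]
  · have h1 : ∀ m ∈ range (s * N + 1), ∫ t in (u : ℝ)..(v : ℝ), ‖p s k N m t‖ ^ 2 =
        ((v : ℝ) - u) * ((((prs s N m) ×ˢ (prs s N m)).filter (fun z => ∑ i, z.1 i ^ k = ∑ i, z.2 i ^ k)).card : ℝ) := by
      intro m _
      have h2 : ∀ t : ℝ, ‖p s k N m t‖ ^ 2 = ∑ z ∈ (prs s N m) ×ˢ (prs s N m),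
          Real.cos (2 * Real.pi * (t * ((((∑ i, z.1 i ^ k : ℕ) : ℤ) - ((∑ i, z.2 i ^ k : ℕ) : ℤ) : ℤ) : ℝ))) := by
        intro t
        rw [p_sq, ← Finset.sum_product']
        apply Finset.sum_congr rfl
        intro z _
        congr 3
        push_cast
        ring
      simp_rw [h2]
      rw [intervalIntegral.integral_finsetSum]
      · simp_rw [int_cos]
        rw [Finset.sum_ite, Finset.sum_const_zero, add_zero, Finset.sum_const, nsmul_eq_mul, mul_comm]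
        congr 3
        apply Finset.filter_congr
        intro z _
        constructor
        · intro h; have := sub_eq_zero.mp h; exact_mod_cast this
        · intro h; rw [h]; simp
      · intro z _
        apply Continuous.intervalIntegrable
        fun_prop
    rw [Finset.sum_congr rfl h1, ← Finset.mul_sum]
    congr 1
    unfold J
    rw [Finset.card_eq_sum_card_fiberwise (f := fun z : (Fin s → ℕ) × (Fin s → ℕ) => ∑ i, z.1 i)
      (t := range (s * N + 1))]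
    · push_cast
      apply Finset.sum_congr rfl
      intro m _
      congr 2
      ext z
      simp only [Finset.mem_filter, Finset.mem_product, prs]
      constructor
      · rintro ⟨⟨⟨a1, a2⟩, b1, b2⟩, c⟩
        exact ⟨⟨⟨a1, b1⟩, a2.trans b2.symm, c⟩, a2⟩
      · rintro ⟨⟨⟨a1, b1⟩, d, c⟩, a2⟩
        exact ⟨⟨⟨a1, a2⟩, b1, d.symm.trans a2⟩, c⟩
    · intro z hz
      have hz' := (Finset.mem_filter.mp hz).1
      rw [Finset.mem_product] at hz'
      have := tup_sum_le s N z.1 hz'.1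
      simp only [Finset.coe_range, Set.mem_Iio]
      omega
  · intro m _
    exact (((p_cont s k N m).norm).pow 2).intervalIntegrable _ _

theorem meas_le (s k N : ℕ) (u v : ℤ) (lam : ℝ) (huv : u ≤ v) (hl : 0 < lam) :
    volume {t : ℝ | t ∈ Set.Icc (u : ℝ) (v : ℝ) ∧ ∃ ξ : ℝ, lam ≤ ‖sm k N t ξ‖} ≤
      ENNReal.ofReal (((s : ℝ) * (N : ℝ) + 1) * (((v : ℝ) - u) * (J s k N : ℝ)) / lam ^ (2 * s)) := by
  set ρ : ℝ := lam ^ (2 * s) / ((s : ℝ) * (N : ℝ) + 1) with hρ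
  have huv' : (u : ℝ) ≤ (v : ℝ) := by exact_mod_cast huv
  have hN0 : (0 : ℝ) < (s : ℝ) * (N : ℝ) + 1 := by positivity
  have hρ0 : 0 < ρ := by positivity
  have hsub : {t : ℝ | t ∈ Set.Icc (u : ℝ) (v : ℝ) ∧ ∃ ξ : ℝ, lam ≤ ‖sm k N t ξ‖} ⊆
      {t : ℝ | ρ ≤ Q s k N t} ∩ Set.Icc (u : ℝ) (v : ℝ) := by
    rintro t ⟨ht, ξ, hξ⟩
    refine ⟨?_, ht⟩
    have h1 := sup s k N t ξ
    have h2 : lam ^ (2 * s) ≤ ‖sm k N t ξ‖ ^ (2 * s) := pow_le_pow_left₀ hl.le hξ (2 * s)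
    change ρ ≤ Q s k N t
    rw [hρ, div_le_iff₀ hN0]
    linarith
  have hmeas : MeasurableSet {t : ℝ | ρ ≤ Q s k N t} :=
    (isClosed_le continuous_const (Q_cont s k N)).measurableSet
  have hint : Integrable (Q s k N) (volume.restrict (Set.Icc (u : ℝ) (v : ℝ))) :=
    ((Q_cont s k N).continuousOn).integrableOn_Icc
  have h3 := mul_meas_ge_le_integral_of_nonneg (μ := volume.restrict (Set.Icc (u : ℝ) (v : ℝ))) (f := Q s k N)
    (Filter.Eventually.of_forall (Q_nonneg s k N)) hint ρ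
  have h4 : ∫ x, Q s k N x ∂(volume.restrict (Set.Icc (u : ℝ) (v : ℝ))) = ∫ t in (u : ℝ)..(v : ℝ), Q s k N t := by
    rw [intervalIntegral.integral_of_le huv', integral_Icc_eq_integral_Ioc]
  rw [h4, int_Q] at h3
  have h5 : (volume.restrict (Set.Icc (u : ℝ) (v : ℝ))).real {t : ℝ | ρ ≤ Q s k N t} =
      (volume ({t : ℝ | ρ ≤ Q s k N t} ∩ Set.Icc (u : ℝ) (v : ℝ))).toReal := by
    unfold Measure.real
    rw [Measure.restrict_apply hmeas]
  rw [h5] at h3
  have hfin : volume ({t : ℝ | ρ ≤ Q s k N t} ∩ Set.Icc (u : ℝ) (v : ℝ)) ≠ ⊤ := by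
    refine ne_top_of_le_ne_top ?_ (measure_mono Set.inter_subset_right)
    rw [Real.volume_Icc]
    exact ENNReal.ofReal_ne_top
  refine (measure_mono hsub).trans ?_
  rw [← ENNReal.ofReal_toReal hfin]
  apply ENNReal.ofReal_le_ofReal
  have h6 : (volume ({t : ℝ | ρ ≤ Q s k N t} ∩ Set.Icc (u : ℝ) (v : ℝ))).toReal ≤
      (((v : ℝ) - u) * (J s k N : ℝ)) / ρ := by
    rw [le_div_iff₀ hρ0]
    linarith [h3, mul_comm ρ (volume ({t : ℝ | ρ ≤ Q s k N t} ∩ Set.Icc (u : ℝ) (v : ℝ))).toReal]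
  refine h6.trans (le_of_eq ?_)
  rw [hρ]
  field_simp

end Pool.Agent.TH181.MW
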